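import Mathlib.Topology.MetricSpace.Pseudo.Defs
import Mathlib.RingTheory.PowerSeries.Exp

/-!
Definitions for parking functions on recursive trees.
Nodes are `0, …, n - 1` (node `i` has label `i + 1`), a tree is given by its parent map.
-/

namespace Pool.Agent.MP_9d63a4_co

open PowerSeries

/-- `p` is the parent map of a recursive tree of size `n`: the root `0` exists and is its own
parent, and every other node has a parent with a smaller label. -/
def IsRecTree {n : ℕ} (p : Fin n → Fin n) : Prop :=
  0 < n ∧ ∀ i : Fin n, if i.val = 0 then p i = i else p i < i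

/-- `s` is a parking function for the tree with parent map `p`: there are parking spots `q k` such
that every driver `k`, starting at `s k` and walking towards the root, parks after `j` steps at a
node not taken by an earlier driver, all nodes visited before being taken by earlier drivers. -/
def IsParking {V : Type} (p : V → V) {m : ℕ} (s : Fin m → V) : Prop :=
  ∃ q : Fin m → V, ∀ k : Fin m, ∃ j : ℕ,
    q k = p^[j] (s k) ∧ (∀ i < k, q i ≠ q k) ∧ ∀ l < j, ∃ i < k, q i = p^[l] (s k)

/-- The number of pairs (recursive tree of size `n`, parking function with `m` drivers). -/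
noncomputable def R (n m : ℕ) : ℕ :=
  Nat.card {x : (Fin n → Fin n) × (Fin m → Fin n) // IsRecTree x.1 ∧ IsParking x.1 x.2}

/-- The generating function `∑ R n m * u ^ m * v ^ (n - m) * z ^ n / (n! m!)` as a series in `z`. -/
noncomputable def G {K : Type} [CommRing K] [Algebra ℚ K] (u v : K) : PowerSeries K :=
  PowerSeries.mk fun n => ∑ m ∈ Finset.range (n + 1),
    algebraMap ℚ K ((R n m : ℚ) / ((n.factorial : ℚ) * (m.factorial : ℚ))) * u ^ m * v ^ (n - m)

/-- The series `∑ (-x) ^ k / k! ^ 2` of `J₀(2 √x)`. -/
noncomputable def bessel (K : Type) [CommRing K] [Algebra ℚ K] : PowerSeries K :=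
  PowerSeries.mk fun k => algebraMap ℚ K ((-1) ^ k / (k.factorial : ℚ) ^ 2)

/-- The series of `∫₀^y exp (-v t) J₀(2 √(u t)) dt` in `y`. -/
noncomputable def Psi {K : Type} [CommRing K] [Algebra ℚ K] (u v : K) : PowerSeries K :=
  PowerSeries.mk fun n => if n = 0 then 0 else
    algebraMap ℚ K (1 / (n : ℚ)) * coeff (n - 1) (rescale (-v) (exp K) * rescale u (bessel K))

/-- The Bessel function `J₀`. -/
noncomputable def J0 (x : ℝ) : ℝ :=
  ∑' k : ℕ, (-1) ^ k * (x / 2) ^ (2 * k) / ((k.factorial : ℝ) * (k.factorial : ℝ))

/-- The Bessel function `J₁`. -/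
noncomputable def J1 (x : ℝ) : ℝ :=
  ∑' k : ℕ, (-1) ^ k * (x / 2) ^ (2 * k + 1) / ((k.factorial : ℝ) * ((k + 1).factorial : ℝ))

end Pool.Agent.MP_9d63a4_co
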