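import Mathlib.Data.Nat.Choose.Cast
import Mathlib.Topology.Algebra.Module.ModuleTopology
import Mathlib.Tactic.Monotonicity.Lemmas
import Mathlib.Algebra.Order.Ring.Star
import Mathlib.Topology.GDelta.MetrizableSpace
import Mathlib.Tactic.NormNum.NatFactorial
import Mathlib.Analysis.InnerProductSpace.Basic
import Mathlib.Algebra.Order.Star.Real
import Mathlib.Analysis.Calculus.Deriv.Pow
import Mathlib.Analysis.Calculus.Deriv.MeanValue
import Mathlib.Analysis.Calculus.SmoothSeries
import Mathlib.Data.Rat.Star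
import Mathlib.Topology.Separation.CompletelyRegular
import Mathlib.RingTheory.PowerSeries.WellKnown
import Mathlib.RingTheory.PowerSeries.Log
import Mathlib.Tactic.Polynomial.Basic
import Pool.Agent.MP_9d63a4_co.Defs

-- ======== part 0: formerly Pool.Agent.MP_9d63a4_co.Hall
section MrgPart0

/-! Parking functions are characterised by a Hall-type condition on parent-closed node sets. -/

namespace Pool.Agent.MP_9d63a4_co

open Finset

variable {V : Type} [DecidableEq V]

/-- Hall-type condition. -/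
def HallF (p : V → V) {m : ℕ} (s : Fin m → V) : Prop :=
  ∀ U : Finset V, (∀ i ∈ U, p i ∈ U) → (univ.filter fun k => s k ∈ U).card ≤ U.card

omit [DecidableEq V] in
lemma iterate_mem {p : V → V} {U : Finset V} (hU : ∀ i ∈ U, p i ∈ U) {x : V} (hx : x ∈ U) :
    ∀ j : ℕ, p^[j] x ∈ U
  | 0 => hx
  | j + 1 => by rw [Function.iterate_succ_apply']; exact hU _ (iterate_mem hU hx j)

lemma hallF_of_isParking {p : V → V} {m : ℕ} {s : Fin m → V} (h : IsParking p s) : HallF p s := by
  obtain ⟨q, hq⟩ := h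
  intro U hU
  refine card_le_card_of_injOn q ?_ ?_
  · intro k hk
    obtain ⟨j, h1, -, -⟩ := hq k
    have hk' : s k ∈ U := by simpa using hk
    simpa [h1] using iterate_mem hU hk' j
  · intro a _ b _ hab
    by_contra hne
    rcases lt_or_gt_of_ne hne with h | h
    · obtain ⟨j, -, h2, -⟩ := hq b
      exact h2 a h hab
    · obtain ⟨j, -, h2, -⟩ := hq a
      exact h2 b h hab.symm

lemma isParking_of_hallF (p : V → V) : ∀ (m : ℕ) (s : Fin m → V), HallF p s → IsParking p s
  | 0, s, _ => ⟨s, fun k => k.elim0⟩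
  | m + 1, s, h => by
      classical
      have h' : HallF p (Fin.init s) := by
        intro U hU
        refine le_trans ?_ (h U hU)
        refine card_le_card_of_injOn Fin.castSucc ?_ (Fin.castSucc_injective m).injOn
        intro k hk
        simpa [Fin.init] using hk
      obtain ⟨q, hq⟩ := isParking_of_hallF p m (Fin.init s) h'
      have hfree : ∃ j : ℕ, ∀ i, q i ≠ p^[j] (s (Fin.last m)) := by
        by_contra hcon
        push Not at hcon
        set U : Finset V := (univ.image q).filter fun w => ∀ j : ℕ, ∃ i, q i = p^[j] w with hUdef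
        have hmem : ∀ w, w ∈ U ↔ ∀ j : ℕ, ∃ i, q i = p^[j] w := by
          intro w
          simp only [hUdef, mem_filter, mem_image, mem_univ, true_and]
          exact ⟨fun h => h.2, fun h => ⟨h 0, h⟩⟩
        have hU : ∀ w ∈ U, p w ∈ U := by
          intro w hw
          rw [hmem] at hw ⊢
          intro j
          simpa using hw (j + 1)
        have h1 : U ⊆ (univ.filter fun k => Fin.init s k ∈ U).image q := by
          intro w hw
          obtain ⟨i, hi⟩ := (hmem w).1 hw 0
          simp only [Function.iterate_zero, id_eq] at hi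
          refine mem_image.2 ⟨i, ?_, hi⟩
          simp only [mem_filter, mem_univ, true_and]
          rw [hmem]
          intro l
          obtain ⟨j, a1, -, a3⟩ := hq i
          by_cases hl : l < j
          · obtain ⟨i', -, hi'⟩ := a3 l hl
            exact ⟨i', hi'⟩
          · obtain ⟨d, rfl⟩ : ∃ d, l = d + j := ⟨l - j, by omega⟩
            rw [Function.iterate_add_apply, ← a1, hi]
            exact (hmem w).1 hw d
        have h2 : U.card ≤ (univ.filter fun k => Fin.init s k ∈ U).card :=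
          (card_le_card h1).trans card_image_le
        have h3 := h U hU
        have h4 : (univ.filter fun k => s k ∈ U) =
            insert (Fin.last m) ((univ.filter fun k => Fin.init s k ∈ U).map Fin.castSuccEmb) := by
          ext k
          refine Fin.lastCases ?_ (fun k => ?_) k
          · simp [(hmem _).2 hcon]
          · simp [Fin.init, (Fin.castSucc_lt_last k).ne]
        rw [h4, card_insert_of_notMem (by simp), card_map] at h3
        omega
      refine ⟨Fin.snoc q (p^[Nat.find hfree] (s (Fin.last m))), fun k => ?_⟩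
      refine Fin.lastCases ?_ (fun k => ?_) k
      · refine ⟨Nat.find hfree, by simp, ?_, ?_⟩
        · intro i hi
          obtain ⟨i, rfl⟩ := Fin.exists_castSucc_eq.2 hi.ne
          simpa using Nat.find_spec hfree i
        · intro l hl
          have := Nat.find_min hfree hl
          push Not at this
          obtain ⟨i, hi⟩ := this
          exact ⟨i.castSucc, Fin.castSucc_lt_last i, by simpa using hi⟩
      · obtain ⟨j, a1, a2, a3⟩ := hq k
        refine ⟨j, by simpa [Fin.init] using a1, ?_, ?_⟩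
        · intro i hi
          obtain ⟨i, rfl⟩ := Fin.exists_castSucc_eq.2 (hi.trans (Fin.castSucc_lt_last k)).ne
          simpa using a2 i (by simpa using hi)
        · intro l hl
          obtain ⟨i, hi, hi'⟩ := a3 l hl
          exact ⟨i.castSucc, by simpa using hi, by simpa [Fin.init] using hi'⟩

lemma isParking_iff_hallF (p : V → V) {m : ℕ} (s : Fin m → V) : IsParking p s ↔ HallF p s :=
  ⟨hallF_of_isParking, isParking_of_hallF p m s⟩

end Pool.Agent.MP_9d63a4_co

end MrgPart0

-- ======== part 1: formerly Pool.Agent.MP_9d63a4_co.Flux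
section MrgPart1

/-! The flux polynomial of increasing forests, its splitting identity, and the driver operator. -/

namespace Pool.Agent.MP_9d63a4_co

open Finset Polynomial

variable {K : Type} [CommRing K] (v : K)

/-- `Phi` sends `X ^ (k + 1)` to `X ^ k` and `1` to `v`. -/
noncomputable def Phi : K[X] →ₗ[K] K[X] where
  toFun f := f.divX + C (v * f.coeff 0)
  map_add' f g := by
    ext k
    simp only [coeff_add, coeff_divX, coeff_C]
    split_ifs <;> ring
  map_smul' c f := by
    ext k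
    simp only [coeff_add, coeff_divX, coeff_C, coeff_smul, smul_eq_mul, RingHom.id_apply]
    split_ifs <;> ring

lemma coeff_Phi (f : K[X]) (k : ℕ) :
    (Phi v f).coeff k = f.coeff (k + 1) + if k = 0 then v * f.coeff 0 else 0 := by
  simp [Phi, coeff_divX, coeff_C]

/-- Weight of a node with `x` arriving cars. -/
def wt (x : ℕ) : K := if x = 0 then v else 1

lemma Phi_X_pow (x : ℕ) : Phi v (X ^ x : K[X]) = wt v x • X ^ (x - 1) := by
  ext k
  rw [coeff_Phi]
  cases x with
  | zero => simp [wt, coeff_one]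
  | succ x => simp [wt, coeff_X_pow]

/-- Sum over increasing forests on `S` of `v ^ (empty nodes) * X ^ (cars leaving the forest)`,
defined by removing the largest label. -/
noncomputable def Vf (S : Finset ℕ) (a : ℕ → ℕ) : K[X] :=
  if h : S.Nonempty then
    wt v (a (S.max' h)) • (X ^ (a (S.max' h) - 1) * Vf (S.erase (S.max' h)) a +
      ∑ j ∈ S.erase (S.max' h), Vf (S.erase (S.max' h)) (a + Pi.single j (a (S.max' h) - 1)))
  else 1
termination_by S.card
decreasing_by all_goals exact card_erase_lt_of_mem (max'_mem _ _)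

lemma Vf_empty (a : ℕ → ℕ) : Vf v ∅ a = 1 := by
  rw [Vf]
  simp

lemma Vf_insert {S : Finset ℕ} {M : ℕ} (hM : ∀ x ∈ S, x < M) (a : ℕ → ℕ) :
    Vf v (insert M S) a = wt v (a M) • (X ^ (a M - 1) * Vf v S a +
      ∑ j ∈ S, Vf v S (a + Pi.single j (a M - 1))) := by
  have hne : (insert M S).Nonempty := insert_nonempty _ _
  have hmax : (insert M S).max' hne = M := by
    apply le_antisymm
    · refine max'_le _ _ _ fun y hy => ?_
      rcases mem_insert.1 hy with rfl | hy
      · exact le_rfl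
      · exact (hM y hy).le
    · exact le_max' _ _ (mem_insert_self _ _)
  have hnot : M ∉ S := fun h => lt_irrefl _ (hM M h)
  rw [Vf, dif_pos hne, hmax, erase_insert hnot]

lemma Vf_congr (S : Finset ℕ) : ∀ a b : ℕ → ℕ, (∀ i ∈ S, a i = b i) → Vf v S a = Vf v S b := by
  induction S using Finset.induction_on_max with
  | empty => intro a b _; rw [Vf_empty, Vf_empty]
  | insert M S hM ih =>
    intro a b hab
    have h1 : a M = b M := hab M (mem_insert_self _ _)
    have h2 : ∀ i ∈ S, a i = b i := fun i hi => hab i (mem_insert_of_mem hi)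
    rw [Vf_insert v hM, Vf_insert v hM, h1, ih a b h2]
    congr 2
    refine sum_congr rfl fun j _ => ih _ _ fun i hi => ?_
    simp [h2 i hi]

lemma Vf_add_single {S : Finset ℕ} {j : ℕ} (hj : j ∉ S) (a : ℕ → ℕ) (c : ℕ) :
    Vf v S (a + Pi.single j c) = Vf v S a := by
  refine Vf_congr v S _ _ fun i hi => ?_
  have : i ≠ j := fun h => hj (h ▸ hi)
  simp [this]

lemma X_pow_dvd_Vf (S : Finset ℕ) :
    ∀ a : ℕ → ℕ, (X : K[X]) ^ (∑ i ∈ S, a i - S.card) ∣ Vf v S a := by
  induction S using Finset.induction_on_max with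
  | empty => intro a; simp
  | insert M S hM ih =>
    intro a
    have hnot : M ∉ S := fun h => lt_irrefl _ (hM M h)
    rw [Vf_insert v hM, sum_insert hnot, card_insert_of_notMem hnot]
    rw [smul_eq_C_mul]
    refine Dvd.dvd.mul_left (dvd_add ?_ (dvd_sum fun j hj => ?_)) _
    · refine dvd_trans (pow_dvd_pow _ ?_) (pow_add (X : K[X]) _ _ ▸
        mul_dvd_mul (dvd_refl (X ^ (a M - 1))) (ih a))
      omega
    · refine dvd_trans (pow_dvd_pow _ ?_) (ih _)
      simp only [Pi.add_apply, sum_add_distrib, sum_pi_single', hj, if_true]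
      omega

/-- Splitting along the smallest label. -/
lemma Vf_split (S : Finset ℕ) : ∀ (μ : ℕ) (a : ℕ → ℕ), (∀ x ∈ S, μ < x) →
    Vf v (insert μ S) a =
      ∑ T ∈ S.powerset, Phi v (X ^ a μ * Vf v T a) * Vf v (S \ T) a := by
  induction S using Finset.induction_on_max with
  | empty =>
    intro μ a _
    rw [Vf_insert v (by simp)]
    simp [Vf_empty, Phi_X_pow]
  | insert M S hM ih =>
    intro μ a hμ
    have hnot : M ∉ S := fun h => lt_irrefl _ (hM M h)
    have hμM : μ < M := hμ M (mem_insert_self _ _)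
    have hμS : ∀ x ∈ S, μ < x := fun x hx => hμ x (mem_insert_of_mem hx)
    have hμnot : μ ∉ S := fun h => lt_irrefl _ (hμS μ h)
    have hM' : ∀ x ∈ insert μ S, x < M := by
      intro x hx
      rcases mem_insert.1 hx with rfl | hx
      · exact hμM
      · exact hM x hx
    rw [insert_comm, Vf_insert v hM', sum_powerset_insert hnot, ← sum_add_distrib,
      sum_insert hμnot, ih μ a hμS, ih μ _ hμS, sum_congr rfl fun j _ => ih μ _ hμS,
      sum_comm, mul_sum, ← sum_add_distrib, ← sum_add_distrib, smul_sum]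
    refine sum_congr rfl fun T hT => ?_
    have hTS : T ⊆ S := mem_powerset.1 hT
    have hμT : μ ∉ T := fun h => hμnot (hTS h)
    have hμST : μ ∉ S \ T := fun h => hμnot (sdiff_subset h)
    have e1 : insert M S \ T = insert M (S \ T) := by
      rw [insert_sdiff_of_notMem _ (fun h => hnot (hTS h))]
    have e2 : insert M S \ insert M T = S \ T := by
      rw [insert_sdiff_insert, sdiff_insert_of_notMem hnot]
    rw [e1, e2, Vf_insert v (fun x hx => hM x (sdiff_subset hx)),
      Vf_insert v (fun x hx => hM x (hTS hx)), Vf_add_single v hμT, Vf_add_single v hμST,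
      ← sum_sdiff hTS]
    have e3 : ∑ j ∈ S \ T, Phi v (X ^ (a + (Pi.single j (a M - 1) : ℕ → ℕ)) μ *
          Vf v T (a + Pi.single j (a M - 1))) * Vf v (S \ T) (a + Pi.single j (a M - 1)) =
        Phi v (X ^ a μ * Vf v T a) * ∑ j ∈ S \ T, Vf v (S \ T) (a + Pi.single j (a M - 1)) := by
      rw [mul_sum]
      refine sum_congr rfl fun j hj => ?_
      have hne : μ ≠ j := fun h => hμST (h ▸ hj)
      rw [Vf_add_single v (mem_sdiff.1 hj).2]
      simp [hne]
    have e4 : ∑ j ∈ T, Phi v (X ^ (a + (Pi.single j (a M - 1) : ℕ → ℕ)) μ *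
          Vf v T (a + Pi.single j (a M - 1))) * Vf v (S \ T) (a + Pi.single j (a M - 1)) =
        Phi v (X ^ a μ * ∑ j ∈ T, Vf v T (a + Pi.single j (a M - 1))) * Vf v (S \ T) a := by
      rw [mul_sum, map_sum, sum_mul]
      refine sum_congr rfl fun j hj => ?_
      have hne : μ ≠ j := fun h => hμT (h ▸ hj)
      rw [Vf_add_single v (S := S \ T) (fun h => (mem_sdiff.1 h).2 hj)]
      simp [hne]
    rw [e3, e4, mul_smul_comm, mul_smul_comm, map_smul, mul_add (X ^ a μ), map_add,
      ← mul_assoc (X ^ a μ), ← pow_add]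
    simp only [Pi.add_apply, Pi.single_eq_same, smul_eq_C_mul]
    ring

/-- The operator that lets one more driver choose a node of `N`. -/
noncomputable def Dr (N : Finset ℕ) (F : (ℕ → ℕ) → K[X]) : (ℕ → ℕ) → K[X] :=
  fun a => ∑ j ∈ N, F (a + Pi.single j 1)

/-- `F` does not see cars arriving in `N`. -/
def Blind (N : Finset ℕ) (F : (ℕ → ℕ) → K[X]) : Prop :=
  ∀ j ∈ N, ∀ a, F (a + Pi.single j 1) = F a

lemma Blind.dr {N N' : Finset ℕ} {F : (ℕ → ℕ) → K[X]} (h : Blind N F) : Blind N (Dr N' F) := by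
  intro j hj a
  refine sum_congr rfl fun i _ => ?_
  rw [add_right_comm, h j hj]

lemma Blind.iter {N N' : Finset ℕ} {F : (ℕ → ℕ) → K[X]} (h : Blind N F) :
    ∀ m : ℕ, Blind N ((Dr N')^[m] F)
  | 0 => h
  | m + 1 => by rw [Function.iterate_succ_apply']; exact (Blind.iter h m).dr

lemma Dr_iter_sum {ι : Type} (N : Finset ℕ) (I : Finset ι) (F : ι → (ℕ → ℕ) → K[X]) :
    ∀ (m : ℕ) (a : ℕ → ℕ),
      (Dr N)^[m] (fun b => ∑ i ∈ I, F i b) a = ∑ i ∈ I, (Dr N)^[m] (F i) a
  | 0, a => rfl
  | m + 1, a => by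
      simp only [Function.iterate_succ_apply', Dr]
      rw [sum_comm]
      exact sum_congr rfl fun j _ => Dr_iter_sum N I F m _

lemma Dr_iter_Phi (N : Finset ℕ) (F : (ℕ → ℕ) → K[X]) :
    ∀ (m : ℕ) (a : ℕ → ℕ), (Dr N)^[m] (fun b => Phi v (F b)) a = Phi v ((Dr N)^[m] F a)
  | 0, a => rfl
  | m + 1, a => by
      simp only [Function.iterate_succ_apply', Dr]
      rw [map_sum]
      exact sum_congr rfl fun j _ => Dr_iter_Phi N F m _

lemma Dr_leibniz {N1 N2 : Finset ℕ} (hd : Disjoint N1 N2) {F1 F2 : (ℕ → ℕ) → K[X]}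
    (h1 : Blind N2 F1) (h2 : Blind N1 F2) :
    ∀ (m : ℕ) (a : ℕ → ℕ), (Dr (N1 ∪ N2))^[m] (fun b => F1 b * F2 b) a =
      ∑ ij ∈ antidiagonal m,
        (m.choose ij.1 : K[X]) * ((Dr N1)^[ij.1] F1 a * (Dr N2)^[ij.2] F2 a)
  | 0, a => by simp
  | m + 1, a => by
      rw [sum_antidiagonal_choose_succ_mul
        (fun i j => (Dr N1)^[i] F1 a * (Dr N2)^[j] F2 a) m]
      rw [Function.iterate_succ_apply']
      simp only [Dr]
      rw [sum_congr rfl fun j _ => Dr_leibniz hd h1 h2 m _, sum_union hd, add_comm]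
      congr 1
      · rw [sum_comm]
        refine sum_congr rfl fun ij _ => ?_
        rw [Function.iterate_succ_apply', Dr, mul_sum, mul_sum]
        refine sum_congr rfl fun j hj => ?_
        rw [h1.iter _ j hj]
      · rw [sum_comm]
        refine sum_congr rfl fun ij hij => ?_
        rw [Function.iterate_succ_apply', Dr, sum_mul, mul_sum,
          Nat.choose_symm_of_eq_add (mem_antidiagonal.1 hij).symm]
        refine sum_congr rfl fun j hj => ?_
        rw [h2.iter _ j hj]

/-- The recursively defined flux polynomials: `n` non-root nodes, `m` drivers. -/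
noncomputable def Zm : ℕ → ℕ → K[X]
  | 0, m => X ^ m
  | n + 1, m => ∑ i ∈ (range (n + 1)).attach, (n.choose i.1 : K[X]) *
      ∑ ij ∈ antidiagonal m, (m.choose ij.1 : K[X]) * (Phi v (Zm i.1 ij.1) * Zm (n - i.1) ij.2)
termination_by n => n
decreasing_by
  · have := mem_range.1 i.2
    omega
  · omega

lemma Zm_zero (m : ℕ) : Zm v 0 m = X ^ m := by rw [Zm]

lemma Zm_succ (n m : ℕ) : Zm v (n + 1) m = ∑ i ∈ range (n + 1), (n.choose i : K[X]) *
      ∑ ij ∈ antidiagonal m, (m.choose ij.1 : K[X]) * (Phi v (Zm v i ij.1) * Zm v (n - i) ij.2) := by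
  rw [Zm]
  exact sum_attach (range (n + 1)) fun i => (n.choose i : K[X]) *
      ∑ ij ∈ antidiagonal m, (m.choose ij.1 : K[X]) * (Phi v (Zm v i ij.1) * Zm v (n - i) ij.2)

lemma Dr_single_pow (r : ℕ) : ∀ (m : ℕ) (a : ℕ → ℕ),
    (Dr {r})^[m] (fun b => (X : K[X]) ^ b r) a = X ^ (a r + m)
  | 0, a => rfl
  | m + 1, a => by
      rw [Function.iterate_succ_apply', Dr, sum_singleton, Dr_single_pow r m]
      simp only [Pi.add_apply, Pi.single_eq_same]
      congr 1
      omega

lemma Dr_iter_eq_Zm : ∀ (n : ℕ) (S : Finset ℕ) (r m : ℕ), S.card = n → r ∉ S →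
    (Dr (insert r S))^[m] (fun b => X ^ b r * Vf v S b) 0 = Zm v n m := by
  intro n
  induction n using Nat.strong_induction_on with
  | _ n ih =>
    intro S r m hS hr
    cases n with
    | zero =>
      obtain rfl : S = ∅ := card_eq_zero.1 hS
      simp only [Vf_empty, mul_one, Zm_zero, insert_empty_eq]
      rw [Dr_single_pow]
      simp
    | succ n =>
      have hne : S.Nonempty := card_pos.1 (by omega)
      set μ := S.min' hne with hμ
      set S0 := S.erase μ with hS0
      have hμS : μ ∈ S := min'_mem _ _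
      have hins : S = insert μ S0 := (insert_erase hμS).symm
      have hlt : ∀ x ∈ S0, μ < x := fun x hx =>
        lt_of_le_of_ne (min'_le _ _ (mem_of_mem_erase hx)) (ne_of_mem_erase hx).symm
      have hcard : S0.card = n := by rw [hS0, card_erase_of_mem hμS, hS]; rfl
      have hμ0 : μ ∉ S0 := notMem_erase _ _
      have hr0 : r ∉ S0 := fun h => hr (mem_of_mem_erase h)
      have hrμ : r ≠ μ := fun h => hr (h ▸ hμS)
      have hfun : (fun b : ℕ → ℕ => X ^ b r * Vf v S b) = fun b => ∑ T ∈ S0.powerset,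
          Phi v (X ^ b μ * Vf v T b) * (X ^ b r * Vf v (S0 \ T) b) := by
        funext b
        rw [hins, Vf_split v S0 μ b hlt, mul_sum]
        exact sum_congr rfl fun T _ => by ring
      rw [hfun, Dr_iter_sum, Zm_succ]
      have hT : ∀ T ∈ S0.powerset, (Dr (insert r S))^[m]
          (fun b => Phi v (X ^ b μ * Vf v T b) * (X ^ b r * Vf v (S0 \ T) b)) 0 =
          (fun i => ∑ ij ∈ antidiagonal m, (m.choose ij.1 : K[X]) *
            (Phi v (Zm v i ij.1) * Zm v (n - i) ij.2)) T.card := by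
        intro T hT
        have hTS : T ⊆ S0 := mem_powerset.1 hT
        have hμT : μ ∉ T := fun h => hμ0 (hTS h)
        have hrT : r ∉ T := fun h => hr0 (hTS h)
        have hrST : r ∉ S0 \ T := fun h => hr0 (sdiff_subset h)
        have hμST : μ ∉ S0 \ T := fun h => hμ0 (sdiff_subset h)
        have hU : insert r S = insert μ T ∪ insert r (S0 \ T) := by
          ext x
          rw [hins]
          simp only [mem_insert, mem_union, mem_sdiff]
          have := @hTS x
          tauto
        have hd : Disjoint (insert μ T) (insert r (S0 \ T)) := by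
          rw [disjoint_left]
          intro x hx hx'
          simp only [mem_insert, mem_sdiff] at hx hx'
          rcases hx with rfl | hx
          · rcases hx' with h | h
            · exact hrμ h.symm
            · exact hμ0 h.1
          · rcases hx' with rfl | h
            · exact hrT hx
            · exact h.2 hx
        have b1 : Blind (insert r (S0 \ T)) (fun b : ℕ → ℕ => Phi v (X ^ b μ * Vf v T b)) := by
          intro j hj b
          have hj' : j ∉ insert μ T := fun h => disjoint_left.1 hd h hj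
          have h1 : μ ≠ j := fun h => hj' (h ▸ mem_insert_self _ _)
          have h2 : j ∉ T := fun h => hj' (mem_insert_of_mem h)
          simp only [Vf_add_single v h2]
          simp [h1]
        have b2 : Blind (insert μ T) (fun b : ℕ → ℕ => X ^ b r * Vf v (S0 \ T) b) := by
          intro j hj b
          have hj' : j ∉ insert r (S0 \ T) := fun h => disjoint_left.1 hd hj h
          have h1 : r ≠ j := fun h => hj' (h ▸ mem_insert_self _ _)
          have h2 : j ∉ S0 \ T := fun h => hj' (mem_insert_of_mem h)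
          simp only [Vf_add_single v h2]
          simp [h1]
        rw [hU, Dr_leibniz hd b1 b2]
        refine sum_congr rfl fun ij _ => ?_
        have hTc : T.card ≤ n := hcard ▸ card_le_card hTS
        rw [Dr_iter_Phi, ih T.card (by omega) T μ _ rfl hμT,
          ih (n - T.card) (by omega) (S0 \ T) r _ (by rw [card_sdiff_of_subset hTS, hcard]) hrST]
      rw [sum_congr rfl hT, sum_powerset_apply_card (fun i => ∑ ij ∈ antidiagonal m,
        (m.choose ij.1 : K[X]) * (Phi v (Zm v i ij.1) * Zm v (n - i) ij.2)), hcard]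
      simp only [nsmul_eq_mul]

end Pool.Agent.MP_9d63a4_co

end MrgPart1

-- ======== part 2: formerly Pool.Agent.MP_9d63a4_co.Trees
section MrgPart2

/-! Linking the flux polynomials with the numbers `R n m`. -/

namespace Pool.Agent.MP_9d63a4_co

open Finset Polynomial

open Classical in
/-- Recursive trees on `0, …, n` as parent maps on `ℕ`. -/
noncomputable def TN : ℕ → Finset (ℕ → ℕ)
  | 0 => {fun _ => 0}
  | n + 1 => (TN n ×ˢ range (n + 1)).image fun x => Function.update x.1 (n + 1) x.2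

lemma mem_TN : ∀ (n : ℕ) (p : ℕ → ℕ), p ∈ TN n ↔
    (∀ i, 1 ≤ i → i ≤ n → p i < i) ∧ ∀ i, i = 0 ∨ n < i → p i = 0
  | 0, p => by
      simp only [TN, mem_singleton]
      constructor
      · rintro rfl
        exact ⟨fun i h1 h2 => by omega, fun _ _ => rfl⟩
      · rintro ⟨-, h⟩
        funext i
        exact h i (by omega)
  | n + 1, p => by
      simp only [TN, mem_image, mem_product, mem_range, Prod.exists]
      constructor
      · rintro ⟨q, j, ⟨hq, hj⟩, rfl⟩
        obtain ⟨h1, h2⟩ := (mem_TN n q).1 hq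
        constructor
        · intro i hi1 hi2
          by_cases h : i = n + 1
          · subst h; simpa using hj
          · rw [Function.update_of_ne h]; exact h1 i hi1 (by omega)
        · intro i hi
          rw [Function.update_of_ne (by omega)]
          exact h2 i (by omega)
      · rintro ⟨h1, h2⟩
        refine ⟨Function.update p (n + 1) 0, p (n + 1), ⟨(mem_TN n _).2 ⟨?_, ?_⟩, ?_⟩, by simp⟩
        · intro i hi1 hi2
          rw [Function.update_of_ne (by omega)]
          exact h1 i hi1 (by omega)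
        · intro i hi
          by_cases h : i = n + 1
          · subst h; simp
          · rw [Function.update_of_ne h]; exact h2 i (by omega)
        · exact h1 (n + 1) (by omega) le_rfl

lemma sum_TN_succ {M : Type} [AddCommMonoid M] (n : ℕ) (f : (ℕ → ℕ) → M) :
    ∑ p ∈ TN (n + 1), f p =
      ∑ j ∈ range (n + 1), ∑ p ∈ TN n, f (Function.update p (n + 1) j) := by
  classical
  rw [TN, sum_image, sum_product_right]
  rintro ⟨p, j⟩ hp ⟨p', j'⟩ hp' h
  simp only [coe_product, Set.mem_prod, mem_coe] at hp hp'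
  have h1 : j = j' := by simpa using congrFun h (n + 1)
  have h2 : p = p' := by
    funext i
    by_cases hi : i = n + 1
    · subst hi
      rw [((mem_TN n p).1 hp.1).2 _ (by omega), ((mem_TN n p').1 hp'.1).2 _ (by omega)]
    · simpa [Function.update_of_ne hi] using congrFun h i
  rw [h1, h2]

/-- Hall condition for arrival numbers `a` on the nodes `0, …, n`. -/
def HallN (n : ℕ) (p a : ℕ → ℕ) : Prop :=
  ∀ U ⊆ range (n + 1), (∀ i ∈ U, p i ∈ U) → ∑ i ∈ U, a i ≤ U.card

lemma hallN_update {n j : ℕ} {p : ℕ → ℕ} (hp : p ∈ TN n) (hj : j < n + 1) (a : ℕ → ℕ) :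
    HallN (n + 1) (Function.update p (n + 1) j) a ↔
      HallN n p (a + Pi.single j (a (n + 1) - 1)) := by
  obtain ⟨hp1, hp2⟩ := (mem_TN n p).1 hp
  have hple : ∀ i, i < n + 1 → p i ≠ n + 1 := by
    intro i hi
    rcases Nat.eq_zero_or_pos i with rfl | h0
    · rw [hp2 0 (Or.inl rfl)]; omega
    · have := hp1 i h0 (by omega); omega
  constructor
  · intro h U hU hcl
    have hnot : n + 1 ∉ U := fun h => by simpa using hU h
    have hU' : U ⊆ range (n + 1 + 1) := hU.trans (range_subset_range.2 (by omega))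
    have hcl' : ∀ i ∈ U, Function.update p (n + 1) j i ∈ U := by
      intro i hi
      have hne : i ≠ n + 1 := fun h => hnot (h ▸ hi)
      rw [Function.update_of_ne hne]
      exact hcl i hi
    have h1 := h U hU' hcl'
    simp only [Pi.add_apply, sum_add_distrib, sum_pi_single']
    split_ifs with hjU
    · have h2 := h (insert (n + 1) U) (insert_subset (by simp) hU') (by
        intro i hi
        rcases mem_insert.1 hi with rfl | hi
        · simp [hjU]
        · exact mem_insert_of_mem (hcl' i hi))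
      rw [sum_insert hnot, card_insert_of_notMem hnot] at h2
      omega
    · omega
  · intro h U hU hcl
    by_cases hn : n + 1 ∈ U
    · have hjU : j ∈ U := by simpa using hcl _ hn
      have hsub : U.erase (n + 1) ⊆ range (n + 1) := by
        intro i hi
        have h1 := mem_range.1 (hU (mem_of_mem_erase hi))
        have h2 := ne_of_mem_erase hi
        exact mem_range.2 (by omega)
      have h1 := h (U.erase (n + 1)) hsub (by
        intro i hi
        have h2 := hcl i (mem_of_mem_erase hi)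
        rw [Function.update_of_ne (ne_of_mem_erase hi)] at h2
        exact mem_erase.2 ⟨hple i (mem_range.1 (hsub hi)), h2⟩)
      have hj' : j ∈ U.erase (n + 1) := mem_erase.2 ⟨by omega, hjU⟩
      simp only [Pi.add_apply, sum_add_distrib, sum_pi_single', hj', if_true] at h1
      rw [← add_sum_erase U a hn, ← card_erase_add_one hn]
      omega
    · have hsub : U ⊆ range (n + 1) := by
        intro i hi
        have h1 := mem_range.1 (hU hi)
        have h2 : i ≠ n + 1 := fun h => hn (h ▸ hi)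
        exact mem_range.2 (by omega)
      have h1 := h U hsub (by
        intro i hi
        have h2 := hcl i hi
        have hne : i ≠ n + 1 := fun h => hn (h ▸ hi)
        rwa [Function.update_of_ne hne] at h2)
      simp only [Pi.add_apply, sum_add_distrib] at h1
      omega

lemma sum_le_of_hallN {n : ℕ} {p a : ℕ → ℕ} (hp : p ∈ TN n) (h : HallN n p a) :
    ∑ i ∈ range (n + 1), a i ≤ n + 1 := by
  obtain ⟨hp1, hp2⟩ := (mem_TN n p).1 hp
  have := h (range (n + 1)) subset_rfl (by
    intro i hi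
    rcases Nat.eq_zero_or_pos i with rfl | h0
    · rw [hp2 0 (Or.inl rfl)]; simp
    · have h1 := mem_range.1 hi
      have := hp1 i h0 (by omega)
      exact mem_range.2 (by omega))
  simpa using this

variable {K : Type} [CommRing K] (v : K)

open Classical in
lemma coeff_zero_Phi_Vf : ∀ (n : ℕ) (a : ℕ → ℕ),
    (Phi v (X ^ a 0 * Vf v (Ioc 0 n) a)).coeff 0 =
      ∑ p ∈ TN n, if HallN n p a then v ^ (n + 1 - ∑ i ∈ range (n + 1), a i) else 0
  | 0, a => by
      have hH : HallN 0 (fun _ => 0) a ↔ a 0 ≤ 1 := by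
        constructor
        · intro h
          simpa using h {0} (by simp) (by simp)
        · intro h U hU _
          rcases subset_singleton_iff.1 (by simpa using hU : U ⊆ {0}) with rfl | rfl
          · simp
          · simpa using h
      simp only [Ioc_self, Vf_empty, mul_one, Phi_X_pow, TN, sum_singleton, hH, zero_add,
        range_one, coeff_smul, smul_eq_mul, coeff_X_pow, wt]
      rcases h : a 0 with _ | _ | k <;> simp
  | n + 1, a => by
      have hI : Ioc 0 (n + 1) = insert (n + 1) (Ioc 0 n) := by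
        ext x; simp only [mem_Ioc, mem_insert]; omega
      have hR : range (n + 1) = insert 0 (Ioc 0 n) := by
        ext x; simp only [mem_Ioc, mem_insert, mem_range]; omega
      have h0 : 0 ∉ Ioc 0 n := by simp
      have key : X ^ a 0 * Vf v (Ioc 0 (n + 1)) a = wt v (a (n + 1)) • ∑ j ∈ range (n + 1),
          X ^ (a + (Pi.single j (a (n + 1) - 1) : ℕ → ℕ)) 0 *
            Vf v (Ioc 0 n) (a + Pi.single j (a (n + 1) - 1)) := by
        rw [hI, Vf_insert v (by intro x hx; have := (mem_Ioc.1 hx).2; omega), hR,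
          sum_insert h0, Vf_add_single v h0, mul_smul_comm, mul_add, mul_sum, ← mul_assoc,
          ← pow_add]
        simp only [Pi.add_apply, Pi.single_eq_same]
        congr 2
        refine sum_congr rfl fun j hj => ?_
        have : (0 : ℕ) ≠ j := fun h => h0 (h ▸ hj)
        simp [this]
      rw [key, map_smul, map_sum, coeff_smul, finsetSum_coeff, sum_TN_succ, smul_sum]
      refine sum_congr rfl fun j hj => ?_
      rw [coeff_zero_Phi_Vf n, smul_sum]
      refine sum_congr rfl fun p hp => ?_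
      rw [hallN_update hp (mem_range.1 hj)]
      split_ifs with hH
      · have h1 := sum_le_of_hallN hp hH
        simp only [Pi.add_apply, sum_add_distrib, sum_pi_single', hj, if_true] at h1 ⊢
        rw [sum_range_succ a (n + 1), wt]
        split_ifs with h2
        · rw [h2] at h1 ⊢
          rw [smul_eq_mul, ← pow_succ']
          congr 1
          omega
        · rw [one_smul]
          congr 1
          omega
      · simp

/-- Arrival numbers of a preference sequence. -/
def cnt {n m : ℕ} (s : Fin m → Fin n) : ℕ → ℕ := ∑ k, Pi.single (s k).val 1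

lemma Dr_iter_range (n : ℕ) (F : (ℕ → ℕ) → K[X]) : ∀ (m : ℕ) (a : ℕ → ℕ),
    (Dr (range n))^[m] F a = ∑ s : Fin m → Fin n, F (a + cnt s)
  | 0, a => by simp [cnt]
  | m + 1, a => by
      rw [Function.iterate_succ_apply', Dr, sum_range,
        ← (Fin.consEquiv fun _ : Fin (m + 1) => Fin n).sum_comp, Fintype.sum_prod_type]
      refine sum_congr rfl fun j _ => ?_
      rw [Dr_iter_range n F m]
      refine sum_congr rfl fun s _ => ?_
      congr 1
      simp [cnt, Fin.sum_univ_succ, Fin.consEquiv, add_assoc]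

lemma sum_cnt {n m : ℕ} (s : Fin m → Fin n) (U : Finset ℕ) :
    ∑ i ∈ U, cnt s i = (univ.filter fun k => (s k).val ∈ U).card := by
  simp only [cnt, Finset.sum_apply]
  rw [sum_comm, card_filter]
  refine sum_congr rfl fun k _ => ?_
  rw [sum_pi_single']

/-- Extension of a parent map on `Fin (n + 1)` to `ℕ`. -/
def extN {n : ℕ} (p : Fin (n + 1) → Fin (n + 1)) : ℕ → ℕ :=
  fun i => if h : i < n + 1 then (p ⟨i, h⟩).val else 0

lemma extN_val {n : ℕ} (p : Fin (n + 1) → Fin (n + 1)) (i : Fin (n + 1)) :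
    extN p i.val = (p i).val := by simp [extN, i.2]

lemma hallF_iff_hallN {n m : ℕ} (p : Fin (n + 1) → Fin (n + 1)) (s : Fin m → Fin (n + 1)) :
    HallF p s ↔ HallN n (extN p) (cnt s) := by
  constructor
  · intro h U hU hcl
    have h1 := h (univ.filter fun i : Fin (n + 1) => i.val ∈ U) (by
      intro i hi
      simp only [mem_filter, mem_univ, true_and] at hi ⊢
      rw [← extN_val]
      exact hcl _ hi)
    rw [sum_cnt]
    simp only [mem_filter, mem_univ, true_and] at h1
    refine h1.trans ?_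
    refine card_le_card_of_injOn Fin.val ?_ Fin.val_injective.injOn
    intro i hi
    simpa using hi
  · intro h U hcl
    have h1 := h (U.map Fin.valEmbedding) (by
      intro i hi
      obtain ⟨j, -, rfl⟩ := mem_map.1 hi
      simpa using j.2) (by
      intro i hi
      obtain ⟨j, hj, rfl⟩ := mem_map.1 hi
      exact mem_map.2 ⟨p j, hcl j hj, by simp [extN_val]⟩)
    rw [sum_cnt, card_map] at h1
    convert h1 using 3 with k
    simp [Fin.val_inj]

open Classical in
lemma R_succ_eq (n m : ℕ) : R (n + 1) m =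
    ∑ s : Fin m → Fin (n + 1), ((TN n).filter fun p => HallN n p (cnt s)).card := by
  rw [R, Nat.card_eq_fintype_card, Fintype.card_subtype, card_filter, Fintype.sum_prod_type_right]
  refine sum_congr rfl fun s _ => ?_
  rw [← card_filter]
  refine card_bij (fun p _ => extN p) ?_ ?_ ?_
  · intro p hp
    simp only [mem_filter, mem_univ, true_and] at hp ⊢
    refine ⟨(mem_TN n _).2 ⟨?_, ?_⟩, (hallF_iff_hallN p s).1 ((isParking_iff_hallF p s).1 hp.2)⟩
    · intro i h1 h2
      have := hp.1.2 ⟨i, by omega⟩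
      rw [if_neg (by simp; omega)] at this
      rw [extN, dif_pos (by omega)]
      exact this
    · rintro i (rfl | hi)
      · have := hp.1.2 ⟨0, by omega⟩
        rw [if_pos rfl] at this
        rw [extN, dif_pos (by omega), this]
      · rw [extN, dif_neg (by omega)]
  · intro p _ q _ h
    funext i
    apply Fin.ext
    rw [← extN_val, ← extN_val, h]
  · intro q hq
    simp only [mem_filter] at hq
    obtain ⟨h1, h2⟩ := (mem_TN n q).1 hq.1
    have hlt : ∀ i : Fin (n + 1), q i.val < n + 1 := by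
      intro i
      rcases Nat.eq_zero_or_pos i.val with h | h
      · rw [h2 _ (Or.inl h)]; omega
      · have := h1 i.val h (by have := i.2; omega)
        have := i.2
        omega
    have he : extN (fun i : Fin (n + 1) => (⟨q i.val, hlt i⟩ : Fin (n + 1))) = q := by
      funext i
      unfold extN
      split_ifs with h
      · rfl
      · exact (h2 i (by omega)).symm
    refine ⟨fun i => ⟨q i.val, hlt i⟩, ?_, he⟩
    simp only [mem_filter, mem_univ, true_and]
    refine ⟨⟨by omega, fun i => ?_⟩, (isParking_iff_hallF _ s).2 ((hallF_iff_hallN _ s).2 ?_)⟩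
    · split_ifs with h
      · apply Fin.ext
        simp only
        rw [h2 _ (Or.inl h), h]
      · exact h1 i.val (by omega) (by have := i.2; omega)
    · rw [he]
      exact hq.2

lemma R_zero (m : ℕ) : R 0 m = 0 := by
  have : IsEmpty {x : (Fin 0 → Fin 0) × (Fin m → Fin 0) // IsRecTree x.1 ∧ IsParking x.1 x.2} :=
    ⟨fun x => lt_irrefl _ x.2.1.1⟩
  simp [R]

lemma coeff_zero_Phi_Zm (n m : ℕ) :
    (Phi v (Zm v n m)).coeff 0 = v ^ (n + 1 - m) * (R (n + 1) m : K) := by
  classical
  have hR : range (n + 1) = insert 0 (Ioc 0 n) := by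
    ext x; simp only [mem_Ioc, mem_insert, mem_range]; omega
  rw [← Dr_iter_eq_Zm v n (Ioc 0 n) 0 m (by simp) (by simp), ← hR, Dr_iter_range, map_sum,
    finsetSum_coeff, R_succ_eq, Nat.cast_sum, mul_sum]
  refine sum_congr rfl fun s _ => ?_
  have : (univ.filter fun k => (s k).val ∈ range (n + 1)).card = m := by
    rw [filter_true_of_mem (fun k _ => mem_range.2 (s k).2)]
    simp
  rw [zero_add, coeff_zero_Phi_Vf, sum_cnt, this, card_filter, Nat.cast_sum, mul_sum]
  refine sum_congr rfl fun p _ => ?_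
  split_ifs <;> simp

lemma X_pow_dvd_Zm (n m : ℕ) : (X : K[X]) ^ (m - n) ∣ Zm v n m := by
  have hR : range (n + 1) = insert 0 (Ioc 0 n) := by
    ext x; simp only [mem_Ioc, mem_insert, mem_range]; omega
  rw [← Dr_iter_eq_Zm v n (Ioc 0 n) 0 m (by simp) (by simp), ← hR, Dr_iter_range]
  refine dvd_sum fun s _ => ?_
  rw [zero_add]
  refine dvd_trans (pow_dvd_pow _ ?_) (pow_add (X : K[X]) _ _ ▸
    mul_dvd_mul (dvd_refl (X ^ (cnt s 0))) (X_pow_dvd_Vf v (Ioc 0 n) (cnt s)))
  have h1 : ∑ i ∈ range (n + 1), cnt s i = m := by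
    rw [sum_cnt, filter_true_of_mem (fun k _ => mem_range.2 (s k).2)]
    simp
  rw [hR, sum_insert (by simp)] at h1
  simp only [Nat.card_Ioc]
  omega

lemma coeff_Zm_eq_zero {n m k : ℕ} (h : n + k < m) : (Zm v n m).coeff k = 0 :=
  X_pow_dvd_iff.1 (X_pow_dvd_Zm v n m) k (by omega)

end Pool.Agent.MP_9d63a4_co

end MrgPart2

-- ======== part 3: formerly Pool.Agent.MP_9d63a4_co.Series
section MrgPart3

/-! Solving the catalytic equation. -/

namespace Pool.Agent.MP_9d63a4_co

open Finset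

variable {K : Type} [CommRing K] [Algebra ℚ K]

variable (K) in
/-- Inverse factorials in `K`. -/
noncomputable def ifac (n : ℕ) : K := algebraMap ℚ K (1 / (n.factorial : ℚ))

lemma ifac_zero : ifac K 0 = 1 := by simp [ifac]

lemma succ_mul_ifac (n : ℕ) : ((n : K) + 1) * ifac K (n + 1) = ifac K n := by
  have key : ((n : K) + 1) = algebraMap ℚ K ((n : ℚ) + 1) := by simp
  rw [key, ifac, ifac, ← map_mul]
  congr 1
  rw [Nat.factorial_succ]
  push_cast
  field_simp

lemma choose_mul_ifac {i j n : ℕ} (h : i + j = n) :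
    (n.choose i : K) * ifac K n = ifac K i * ifac K j := by
  subst h
  have key : (((i + j).choose i : ℕ) : K) = algebraMap ℚ K (((i + j).choose i : ℕ) : ℚ) := by simp
  rw [key, ifac, ifac, ifac, ← map_mul, ← map_mul]
  congr 1
  rw [Nat.cast_add_choose]
  field_simp

lemma succ_cancel {n : ℕ} {x y : K} (h : x * ((n : K) + 1) = y * ((n : K) + 1)) : x = y := by
  have key : ((n : K) + 1) * algebraMap ℚ K (1 / ((n : ℚ) + 1)) = 1 := by
    have : ((n : K) + 1) = algebraMap ℚ K ((n : ℚ) + 1) := by simp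
    rw [this, ← map_mul, mul_one_div_cancel (by positivity), map_one]
  calc x = x * ((n : K) + 1) * algebraMap ℚ K (1 / ((n : ℚ) + 1)) := by rw [mul_assoc, key, mul_one]
    _ = y := by rw [h, mul_assoc, key, mul_one]

section Poly

open Polynomial

variable (v : K)

/-- The polynomial in the driver variable collecting the coefficient of `z ^ n t ^ k`. -/
noncomputable def Pz (n k : ℕ) : K[X] :=
  ∑ m ∈ range (n + k + 1), monomial m (ifac K n * ifac K m * (Zm v n m).coeff k)

lemma coeff_Pz (n k m : ℕ) :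
    (Pz v n k).coeff m = ifac K n * ifac K m * (Zm v n m).coeff k := by
  simp only [Pz, finsetSum_coeff, coeff_monomial, sum_ite_eq', mem_range]
  split_ifs with h
  · rfl
  · rw [coeff_Zm_eq_zero v (by omega), mul_zero]

/-- The same for `Phi`. -/
noncomputable def Pz' (n k : ℕ) : K[X] := Pz v n (k + 1) + if k = 0 then C v * Pz v n 0 else 0

lemma coeff_Pz' (n k m : ℕ) :
    (Pz' v n k).coeff m = ifac K n * ifac K m * (Phi v (Zm v n m)).coeff k := by
  rw [Pz', coeff_add, coeff_Pz, coeff_Phi]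
  split_ifs with h
  · rw [coeff_C_mul, coeff_Pz]; ring
  · simp

lemma Pz_succ (n k : ℕ) : Pz v (n + 1) k * ((n : K[X]) + 1) =
    ∑ kk ∈ antidiagonal k, ∑ ij ∈ antidiagonal n, Pz' v ij.1 kk.1 * Pz v ij.2 kk.2 := by
  ext m
  have h1 : ((n : K[X]) + 1) = C ((n : K) + 1) := by simp
  rw [h1, coeff_mul_C, coeff_Pz, Zm_succ, sum_comm,
    Finset.Nat.sum_antidiagonal_eq_sum_range_succ
      (fun i j => ∑ kk ∈ antidiagonal k, Pz' v i kk.1 * Pz v j kk.2)]
  simp only [finsetSum_coeff, coeff_natCast_mul, mul_sum]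
  simp only [mul_sum, sum_mul, coeff_mul, coeff_Pz, coeff_Pz']
  refine sum_congr rfl fun i hi => ?_
  rw [sum_comm]
  refine sum_congr rfl fun kk _ => sum_congr rfl fun mm hmm => ?_
  have e1 := choose_mul_ifac (K := K) (mem_antidiagonal.1 hmm)
  have e2 := choose_mul_ifac (K := K) (i := i) (j := n - i) (n := n)
    (by have := mem_range.1 hi; omega)
  have e3 := succ_mul_ifac (K := K) n
  set A := (Phi v (Zm v i mm.1)).coeff kk.1
  set B := (Zm v (n - i) mm.2).coeff kk.2
  calc _ = ((n.choose i : K) * (((n : K) + 1) * ifac K (n + 1))) *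
        ((m.choose mm.1 : K) * ifac K m) * A * B := by ring
    _ = _ := by rw [e3, e1, e2]; ring

lemma Pz_zero (k : ℕ) : Pz v 0 k = monomial k (ifac K k) := by
  ext m
  rw [coeff_Pz, Zm_zero, coeff_X_pow, coeff_monomial, ifac_zero]
  split_ifs with h
  · subst h; simp
  · simp

lemma eval_Pz'_zero (u : K) (n : ℕ) : (Pz' v n 0).eval u =
    ∑ m ∈ range (n + 2), ifac K n * ifac K m * (R (n + 1) m : K) * u ^ m * v ^ (n + 1 - m) := by
  have hdeg : (Pz' v n 0).natDegree < n + 2 := by
    rw [Nat.lt_succ_iff, natDegree_le_iff_coeff_eq_zero]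
    intro m hm
    rw [coeff_Pz', coeff_Phi, coeff_Zm_eq_zero v (by omega), coeff_Zm_eq_zero v (by omega)]
    simp
  rw [eval_eq_sum_range' hdeg]
  refine sum_congr rfl fun m _ => ?_
  rw [coeff_Pz', coeff_zero_Phi_Zm]
  ring

end Poly

open PowerSeries

variable (u v : K)

/-- Coefficient of `t ^ k` of the catalytic generating function. -/
noncomputable def Zk (k : ℕ) : K⟦X⟧ := mk fun n => (Pz v n k).eval u

lemma derivative_Zk (k : ℕ) : d⁄dX K (Zk u v k) = ∑ kk ∈ antidiagonal k,
    (Zk u v (kk.1 + 1) + if kk.1 = 0 then C v * Zk u v 0 else 0) * Zk u v kk.2 := by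
  ext n
  have h := congrArg (Polynomial.eval u) (Pz_succ v n k)
  simp only [Polynomial.eval_mul, Polynomial.eval_add, Polynomial.eval_natCast,
    Polynomial.eval_one, Polynomial.eval_finsetSum] at h
  rw [coeff_derivative, Zk, coeff_mk, h, map_sum]
  refine sum_congr rfl fun kk _ => ?_
  rw [coeff_mul]
  refine sum_congr rfl fun ij _ => ?_
  congr 1
  · rw [Pz']
    split_ifs <;> simp [Zk]
  · simp [Zk]

lemma constantCoeff_Zk (k : ℕ) : constantCoeff (Zk u v k) = ifac K k * u ^ k := by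
  rw [← coeff_zero_eq_constantCoeff_apply, Zk, coeff_mk, Pz_zero, Polynomial.eval_monomial]

lemma constantCoeff_G : constantCoeff (G u v) = 0 := by
  rw [← coeff_zero_eq_constantCoeff_apply, G, coeff_mk]
  simp [R_zero]

lemma derivative_G : d⁄dX K (G u v) = Zk u v 1 + C v * Zk u v 0 := by
  ext n
  have h := eval_Pz'_zero v u n
  rw [Pz', if_pos rfl] at h
  simp only [Polynomial.eval_add, Polynomial.eval_mul, Polynomial.eval_C, zero_add] at h
  rw [coeff_derivative, G, coeff_mk, map_add, coeff_C_mul, Zk, Zk, coeff_mk, coeff_mk, h, sum_mul]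
  refine sum_congr rfl fun m _ => ?_
  have e : algebraMap ℚ K ((R (n + 1) m : ℚ) / (((n + 1).factorial : ℚ) * (m.factorial : ℚ))) =
      ifac K (n + 1) * ifac K m * (R (n + 1) m : K) := by
    have key : ((R (n + 1) m : ℕ) : K) = algebraMap ℚ K ((R (n + 1) m : ℕ) : ℚ) := by simp
    rw [key, ifac, ifac, ← map_mul, ← map_mul]
    congr 1
    field_simp
  rw [e, ← succ_mul_ifac (K := K) n]
  ring

/-- Formal integration. -/
noncomputable def integ (f : K⟦X⟧) : K⟦X⟧ :=
  mk fun n => if n = 0 then 0 else algebraMap ℚ K (1 / (n : ℚ)) * coeff (n - 1) f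

lemma constantCoeff_integ (f : K⟦X⟧) : constantCoeff (integ f) = 0 := by
  rw [← coeff_zero_eq_constantCoeff_apply, integ, coeff_mk, if_pos rfl]

lemma derivative_integ (f : K⟦X⟧) : d⁄dX K (integ f) = f := by
  ext n
  have key : algebraMap ℚ K (1 / ((n + 1 : ℕ) : ℚ)) * ((n : K) + 1) = 1 := by
    have : ((n : K) + 1) = algebraMap ℚ K ((n + 1 : ℕ) : ℚ) := by simp
    rw [this, ← map_mul, one_div_mul_cancel (by positivity), map_one]
  rw [coeff_derivative, integ, coeff_mk, if_neg (by omega), Nat.add_sub_cancel, mul_right_comm,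
    key, one_mul]

lemma eq_of_derivative_eq {f g : K⟦X⟧} (hd : d⁄dX K f = d⁄dX K g)
    (hc : constantCoeff f = constantCoeff g) : f = g := by
  ext n
  cases n with
  | zero => simpa using hc
  | succ n =>
    have := congrArg (coeff n) hd
    rw [coeff_derivative, coeff_derivative] at this
    exact succ_cancel this

lemma eq_of_derivative_eq_mul {f g h : K⟦X⟧} (hf : d⁄dX K f = h * f) (hg : d⁄dX K g = h * g)
    (hc : constantCoeff f = constantCoeff g) : f = g := by
  ext n
  induction n using Nat.strong_induction_on with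
  | _ n ih =>
    cases n with
    | zero => simpa using hc
    | succ n =>
      apply succ_cancel (n := n)
      rw [← coeff_derivative, ← coeff_derivative, hf, hg, coeff_mul, coeff_mul]
      refine sum_congr rfl fun ij hij => ?_
      rw [ih ij.2 (by have := mem_antidiagonal.1 hij; omega)]

/-- The series `exp (-v y) ∑ⱼ (-u) ^ (k + j) y ^ j / (j! (k + j)!)`. -/
noncomputable def psi (k : ℕ) : K⟦X⟧ :=
  rescale (-v) (exp K) * mk fun j => ifac K j * ifac K (k + j) * (-u) ^ (k + j)

lemma derivative_rescale_exp (c : K) :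
    d⁄dX K (rescale c (exp K)) = C c * rescale c (exp K) := by
  ext n
  rw [coeff_derivative, coeff_C_mul, coeff_rescale, coeff_rescale, coeff_exp, coeff_exp]
  have := succ_mul_ifac (K := K) n
  unfold ifac at this
  rw [← this]
  ring

lemma derivative_psi (k : ℕ) : d⁄dX K (psi u v k) = psi u v (k + 1) - C v * psi u v k := by
  have h : d⁄dX K (mk fun j => ifac K j * ifac K (k + j) * (-u) ^ (k + j)) =
      mk fun j => ifac K j * ifac K (k + 1 + j) * (-u) ^ (k + 1 + j) := by
    ext j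
    rw [coeff_derivative, coeff_mk, coeff_mk, ← succ_mul_ifac (K := K) j,
      show k + (j + 1) = k + 1 + j by omega]
    ring
  rw [psi, Derivation.leibniz, h, derivative_rescale_exp, psi]
  simp only [smul_eq_mul, map_neg]
  ring

lemma constantCoeff_psi (k : ℕ) : constantCoeff (psi u v k) = ifac K k * (-u) ^ k := by
  rw [psi, map_mul, ← coeff_zero_eq_constantCoeff_apply, ← coeff_zero_eq_constantCoeff_apply,
    coeff_rescale, coeff_mk, ifac_zero]
  simp

lemma derivative_Psi : d⁄dX K (Psi u v) = psi u v 0 := by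
  have h1 : Psi u v = integ (rescale (-v) (exp K) * rescale u (bessel K)) := rfl
  rw [h1, derivative_integ, psi]
  congr 1
  ext j
  rw [coeff_rescale, bessel, coeff_mk, coeff_mk, zero_add, ifac, ← map_mul, neg_pow u]
  have : ((-1 : K)) ^ j = algebraMap ℚ K ((-1) ^ j) := by simp
  rw [this, mul_comm, ← mul_assoc, ← map_mul]
  congr 2
  field_simp

lemma constantCoeff_Psi : constantCoeff (Psi u v) = 0 := constantCoeff_integ _

omit [Algebra ℚ K] in
lemma constantCoeff_subst' {E : K⟦X⟧} (hE : constantCoeff E = 0) (f : K⟦X⟧) :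
    constantCoeff (f.subst E : K⟦X⟧) = constantCoeff f := by
  rw [← coeff_zero_eq_constantCoeff_apply, coeff_subst' (HasSubst.of_constantCoeff_zero' hE),
    finsum_eq_single _ 0]
  · simp
  · intro d hd
    simp [hE, hd]

/-- The convolution of `Zk` with `psi ∘ E`. -/
noncomputable def Qk (k : ℕ) : K⟦X⟧ :=
  ∑ ij ∈ antidiagonal k, Zk u v ij.1 * (psi u v ij.2).subst (integ (Zk u v 0))

/-- Coefficientwise derivative on iterated power series. -/
noncomputable def del (f : K⟦X⟧⟦X⟧) : K⟦X⟧⟦X⟧ := mk fun k => d⁄dX K (coeff k f)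

omit [Algebra ℚ K] in
lemma del_mul (f g : K⟦X⟧⟦X⟧) : del (f * g) = del f * g + f * del g := by
  ext1 k
  simp only [del, coeff_mk, map_add, coeff_mul, map_sum, Derivation.leibniz, smul_eq_mul,
    ← sum_add_distrib]
  exact sum_congr rfl fun ij _ => by ring

lemma derivative_Qk (k : ℕ) :
    d⁄dX K (Qk u v k) = ∑ ij ∈ antidiagonal k, Zk u v ij.1 * Qk u v (ij.2 + 1) := by
  set E := integ (Zk u v 0) with hE
  have hsub : HasSubst E := HasSubst.of_constantCoeff_zero' (constantCoeff_integ _)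
  set Z : K⟦X⟧⟦X⟧ := mk fun k => Zk u v k with hZ
  set Z1 : K⟦X⟧⟦X⟧ := mk fun k => Zk u v (k + 1) with hZ1
  set Y : K⟦X⟧⟦X⟧ := mk fun k => (psi u v k).subst E with hY
  set Y1 : K⟦X⟧⟦X⟧ := mk fun k => (psi u v (k + 1)).subst E with hY1
  have hQ : ∀ k, Qk u v k = coeff k (Z * Y) := by
    intro k
    simp [Qk, coeff_mul, hZ, hY, hE]
  have h1 : del Z = (Z1 + C (C v * Zk u v 0)) * Z := by
    ext1 k
    rw [del, coeff_mk, hZ, coeff_mk, derivative_Zk, coeff_mul]
    refine sum_congr rfl fun kk _ => ?_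
    simp [hZ1, coeff_C]
  have h2 : del Y = C (Zk u v 0) * (Y1 - C (C v) * Y) := by
    ext1 k
    rw [del, coeff_mk, hY, coeff_mk, derivative_subst hsub, derivative_psi, hE, derivative_integ,
      ← hE, subst_sub hsub, subst_mul hsub, subst_C, coeff_C_mul, map_sub, coeff_C_mul, hY1,
      coeff_mk, coeff_mk]
    exact mul_comm _ _
  have h3 : ∀ k, coeff (k + 1) (Z * Y) = coeff k (Z1 * Y + C (Zk u v 0) * Y1) := by
    intro k
    rw [coeff_mul, Finset.Nat.antidiagonal_succ, sum_cons, sum_map, map_add, coeff_mul,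
      coeff_C_mul, add_comm]
    simp [hZ, hZ1, hY, hY1]
  have h4 : del (Z * Y) = Z * (Z1 * Y + C (Zk u v 0) * Y1) := by
    rw [del_mul, h1, h2, map_mul]
    ring
  have h5 := congrArg (coeff k) h4
  rw [del, coeff_mk, ← hQ, coeff_mul] at h5
  rw [h5]
  refine sum_congr rfl fun ij _ => ?_
  rw [hQ, h3, hZ, coeff_mk]

lemma constantCoeff_Qk (k : ℕ) : constantCoeff (Qk u v k) = if k = 0 then 1 else 0 := by
  have h := congrArg (coeff k) (exp_mul_exp_eq_exp_add u (-u))
  rw [add_neg_cancel, rescale_zero_apply, constantCoeff_exp, coeff_C, coeff_mul] at h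
  rw [← h, Qk, map_sum]
  refine sum_congr rfl fun ij _ => ?_
  rw [map_mul, constantCoeff_Zk, constantCoeff_subst' (constantCoeff_integ _), constantCoeff_psi,
    coeff_rescale, coeff_rescale, coeff_exp, coeff_exp, ifac, ifac]
  ring

lemma Qk_succ (k : ℕ) : Qk u v (k + 1) = 0 := by
  suffices h : ∀ n k, coeff n (Qk u v (k + 1)) = 0 by
    ext n
    rw [h, map_zero]
  intro n
  induction n using Nat.strong_induction_on with
  | _ n ih =>
    intro k
    cases n with
    | zero => simp [constantCoeff_Qk]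
    | succ n =>
      apply succ_cancel (n := n)
      rw [← coeff_derivative, derivative_Qk, zero_mul, map_sum]
      refine sum_eq_zero fun ij _ => ?_
      rw [coeff_mul]
      refine sum_eq_zero fun ab hab => ?_
      rw [ih ab.2 (by have := mem_antidiagonal.1 hab; omega), mul_zero]

lemma Qk_zero : Qk u v 0 = 1 := by
  apply eq_of_derivative_eq
  · rw [derivative_Qk]
    simp [Qk_succ]
  · simp [constantCoeff_Qk]

/-- The generating function is solved. -/
theorem gf_solution : ∃ E : K⟦X⟧, constantCoeff E = 0 ∧ (Psi u v).subst E = (X : K⟦X⟧) ∧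
    (exp K).subst (G u v) = d⁄dX K E := by
  have hE := constantCoeff_integ (Zk u v 0)
  have hsub : HasSubst (integ (Zk u v 0)) := HasSubst.of_constantCoeff_zero' hE
  refine ⟨integ (Zk u v 0), hE, ?_, ?_⟩
  · apply eq_of_derivative_eq
    · have h := Qk_zero u v
      rw [Qk] at h
      simp only [Finset.Nat.antidiagonal_zero, sum_singleton] at h
      rw [derivative_subst hsub, derivative_Psi, derivative_integ, mul_comm, h, derivative_X]
    · rw [constantCoeff_subst' hE, constantCoeff_Psi, constantCoeff_X]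
  · rw [derivative_integ]
    have hG : HasSubst (G u v) := HasSubst.of_constantCoeff_zero' (constantCoeff_G u v)
    apply eq_of_derivative_eq_mul (h := d⁄dX K (G u v))
    · rw [derivative_subst hG, derivative_exp, mul_comm]
    · rw [derivative_Zk, derivative_G]
      simp
    · rw [constantCoeff_subst' (constantCoeff_G u v), constantCoeff_exp, constantCoeff_Zk,
        ifac_zero]
      simp

end Pool.Agent.MP_9d63a4_co

end MrgPart3

-- ======== part 4: formerly Pool.Agent.MP_9d63a4_co.Closed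
section MrgPart4

/-! Closed form of the generating function. -/

namespace Pool.Agent.MP_9d63a4_co

open Finset PowerSeries

variable {K : Type} [CommRing K] [Algebra ℚ K]

lemma derivative_logOf_mul {f : K⟦X⟧} (hf : constantCoeff f = 1) :
    d⁄dX K (logOf f) * f = d⁄dX K f := by
  have h0 : constantCoeff (f - 1) = 0 := by simp [hf]
  have hs : HasSubst (f - 1) := HasSubst.of_constantCoeff_zero' h0
  have h1 : d⁄dX K (log K) * (1 + X) = 1 := by
    rw [deriv_log]
    ext n
    rw [mul_add, mul_one, map_add, coeff_mk]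
    cases n with
    | zero => simp
    | succ n =>
      rw [coeff_succ_mul_X, coeff_mk, coeff_one, if_neg (by omega), ← map_add, pow_succ]
      simp
  have h2 := congrArg (substAlgHom (R := K) hs) h1
  rw [map_mul, map_add, map_one, substAlgHom_X, coe_substAlgHom, add_sub_cancel] at h2
  rw [logOf_eq, derivative_subst hs, map_sub, derivative_one, sub_zero, mul_right_comm, h2, one_mul]

lemma coeff_one_Psi (u v : K) : coeff 1 (Psi u v) = 1 := by
  have h := congrArg (coeff 0) (derivative_Psi u v)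
  rw [coeff_derivative, coeff_zero_eq_constantCoeff_apply, constantCoeff_psi, ifac_zero] at h
  simpa using h

theorem gf_closed (u v : K) : ∃ E : K⟦X⟧,
    (∀ F : K⟦X⟧, (constantCoeff F = 0 ∧ (Psi u v).subst F = (X : K⟦X⟧)) ↔ F = E) ∧
      G u v = C v * E - logOf ((rescale u (bessel K)).subst E) := by
  obtain ⟨E, hE0, hE1, hE2⟩ := gf_solution u v
  have hs : HasSubst E := HasSubst.of_constantCoeff_zero' hE0
  have hunit : IsUnit (coeff 1 (Psi u v)) := by rw [coeff_one_Psi]; exact isUnit_one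
  have hP : HasSubst (Psi u v) := HasSubst.of_constantCoeff_zero' (constantCoeff_Psi u v)
  have huniq : ∀ F : K⟦X⟧, constantCoeff F = 0 → (Psi u v).subst F = (X : K⟦X⟧) →
      F = (Psi u v).substInvOfIsUnit hunit := by
    intro F h0 h1
    have hF : HasSubst F := HasSubst.of_constantCoeff_zero' h0
    have h2 := subst_comp_subst_apply hP hF ((Psi u v).substInvOfIsUnit hunit)
    rw [subst_substInvOfIsUnit_left _ (constantCoeff_Psi u v), subst_X hF, h1, X_subst] at h2
    exact h2
  refine ⟨E, fun F => ⟨fun h => (huniq F h.1 h.2).trans (huniq E hE0 hE1).symm, ?_⟩, ?_⟩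
  · rintro rfl
    exact ⟨hE0, hE1⟩
  · set b : K⟦X⟧ := (rescale u (bessel K)).subst E with hb
    set e : K⟦X⟧ := (rescale (-v) (exp K)).subst E with he
    have hb0 : constantCoeff b = 1 := by
      rw [hb, constantCoeff_subst' hE0, ← coeff_zero_eq_constantCoeff_apply, coeff_rescale, bessel,
        coeff_mk]
      simp
    have hG : HasSubst (G u v) := HasSubst.of_constantCoeff_zero' (constantCoeff_G u v)
    have i1 : e * b * d⁄dX K E = 1 := by
      have := congrArg (d⁄dX K) hE1
      have h1 : Psi u v = integ (rescale (-v) (exp K) * rescale u (bessel K)) := rfl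
      rwa [derivative_subst hs, h1, derivative_integ, derivative_X, subst_mul hs] at this
    have i2 : d⁄dX K (d⁄dX K E) = d⁄dX K E * d⁄dX K (G u v) := by
      conv_lhs => rw [← hE2]
      rw [derivative_subst hG, derivative_exp, hE2]
    have i3 : d⁄dX K e = -(C v * e * d⁄dX K E) := by
      rw [he, derivative_subst hs, derivative_rescale_exp, subst_mul hs, subst_C, map_neg]
      change -C v * _ * _ = _
      ring
    have i4 := congrArg (d⁄dX K) i1
    rw [Derivation.leibniz, Derivation.leibniz, i2, i3, derivative_one] at i4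
    simp only [smul_eq_mul] at i4
    have i5 := derivative_logOf_mul hb0
    apply eq_of_derivative_eq
    · rw [map_sub, Derivation.leibniz, derivative_C, smul_eq_mul, smul_zero, add_zero]
      linear_combination i4 - (d⁄dX K (G u v) - C v * d⁄dX K E + d⁄dX K (logOf b)) * i1 +
        (e * d⁄dX K E) * i5
    · rw [constantCoeff_G, map_sub, map_mul, hE0, constantCoeff_logOf hb0]
      simp

end Pool.Agent.MP_9d63a4_co

end MrgPart4

-- ======== part 5: formerly Pool.Agent.MP_9d63a4_co.L1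
section MrgPart5

/-! Absolutely convergent real power series: a small weighted `ℓ¹` calculus. -/

namespace Pool.Agent.MP_9d63a4_co

open Finset PowerSeries

/-- Absolute convergence at `x`. -/
def Sm (x : ℝ) (F : ℝ⟦X⟧) : Prop := Summable fun n => ‖coeff n F * x ^ n‖

/-- The weighted `ℓ¹` norm. -/
noncomputable def Nm (x : ℝ) (F : ℝ⟦X⟧) : ℝ := ∑' n, ‖coeff n F * x ^ n‖

/-- The value at `x`. -/
noncomputable def ev (x : ℝ) (F : ℝ⟦X⟧) : ℝ := ∑' n, coeff n F * x ^ n

variable {x y : ℝ} {F G : ℝ⟦X⟧}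

lemma Nm_nonneg (x : ℝ) (F : ℝ⟦X⟧) : 0 ≤ Nm x F := tsum_nonneg fun _ => norm_nonneg _

lemma term_le (h : |y| ≤ |x|) (F : ℝ⟦X⟧) (n : ℕ) : ‖coeff n F * y ^ n‖ ≤ ‖coeff n F * x ^ n‖ := by
  rw [norm_mul, norm_mul, norm_pow, norm_pow]
  exact mul_le_mul_of_nonneg_left (pow_le_pow_left₀ (norm_nonneg _) h n) (norm_nonneg _)

lemma Sm.mono (hF : Sm x F) (h : |y| ≤ |x|) : Sm y F :=
  Summable.of_nonneg_of_le (fun _ => norm_nonneg _) (term_le h F) hF

lemma Nm_mono (hF : Sm x F) (h : |y| ≤ |x|) : Nm y F ≤ Nm x F :=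
  (hF.mono h).tsum_le_tsum (term_le h F) hF

lemma abs_ev_le (hF : Sm x F) : |ev x F| ≤ Nm x F := norm_tsum_le_tsum_norm hF

lemma Sm.add (hF : Sm x F) (hG : Sm x G) : Sm x (F + G) := by
  refine Summable.of_nonneg_of_le (fun _ => norm_nonneg _) (fun n => ?_) (Summable.add hF hG)
  rw [map_add, add_mul]
  exact norm_add_le _ _

lemma Sm.neg (hF : Sm x F) : Sm x (-F) := by
  simpa [Sm] using hF

lemma Sm.sub (hF : Sm x F) (hG : Sm x G) : Sm x (F - G) := by
  rw [sub_eq_add_neg]; exact hF.add hG.neg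

lemma ev_add (hF : Sm x F) (hG : Sm x G) : ev x (F + G) = ev x F + ev x G := by
  simp only [ev, map_add, add_mul]
  exact Summable.tsum_add hF.of_norm hG.of_norm

lemma ev_neg (x : ℝ) (F : ℝ⟦X⟧) : ev x (-F) = -ev x F := by
  simp [ev, tsum_neg]

lemma ev_sub (hF : Sm x F) (hG : Sm x G) : ev x (F - G) = ev x F - ev x G := by
  rw [sub_eq_add_neg, ev_add hF hG.neg, ev_neg, sub_eq_add_neg]

lemma Sm_C (x c : ℝ) : Sm x (C c) :=
  summable_of_ne_finset_zero (s := {0}) fun n hn => by
    have : n ≠ 0 := by simpa using hn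
    simp [coeff_C, this]

lemma ev_C (x c : ℝ) : ev x (C c) = c := by
  rw [ev, tsum_eq_single 0 (fun n hn => by simp [coeff_C, hn])]
  simp

lemma Nm_C (x c : ℝ) : Nm x (C c) = |c| := by
  rw [Nm, tsum_eq_single 0 (fun n hn => by simp [coeff_C, hn])]
  simp

lemma Sm_one (x : ℝ) : Sm x 1 := by simpa using Sm_C x 1

lemma ev_one (x : ℝ) : ev x 1 = 1 := by simpa using ev_C x 1

lemma Nm_one (x : ℝ) : Nm x 1 = 1 := by simpa using Nm_C x 1

lemma Sm_X (x : ℝ) : Sm x X :=
  summable_of_ne_finset_zero (s := {1}) fun n hn => by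
    have : n ≠ 1 := by simpa using hn
    simp [coeff_X, this]

lemma ev_X (x : ℝ) : ev x X = x := by
  rw [ev, tsum_eq_single 1 (fun n hn => by simp [coeff_X, hn])]
  simp

lemma term_mul (x : ℝ) (F G : ℝ⟦X⟧) (n : ℕ) : coeff n (F * G) * x ^ n =
    ∑ kl ∈ antidiagonal n, (coeff kl.1 F * x ^ kl.1) * (coeff kl.2 G * x ^ kl.2) := by
  rw [coeff_mul, sum_mul]
  refine sum_congr rfl fun kl h => ?_
  rw [← mem_antidiagonal.1 h, pow_add]
  ring

lemma Sm.mul (hF : Sm x F) (hG : Sm x G) : Sm x (F * G) := by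
  simp only [Sm, term_mul]
  exact summable_norm_sum_mul_antidiagonal_of_summable_norm (f := fun n => coeff n F * x ^ n)
    (g := fun n => coeff n G * x ^ n) hF hG

lemma ev_mul (hF : Sm x F) (hG : Sm x G) : ev x (F * G) = ev x F * ev x G := by
  simp only [ev, term_mul]
  exact (tsum_mul_tsum_eq_tsum_sum_antidiagonal_of_summable_norm (f := fun n => coeff n F * x ^ n)
    (g := fun n => coeff n G * x ^ n) hF hG).symm

lemma Nm_mul_le (hF : Sm x F) (hG : Sm x G) : Nm x (F * G) ≤ Nm x F * Nm x G := by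
  have h1 : Summable fun n => ‖‖coeff n F * x ^ n‖‖ := by simpa only [norm_norm, Sm] using hF
  have h2 : Summable fun n => ‖‖coeff n G * x ^ n‖‖ := by simpa only [norm_norm, Sm] using hG
  rw [Nm, Nm, Nm, tsum_mul_tsum_eq_tsum_sum_antidiagonal_of_summable_norm h1 h2]
  refine (hF.mul hG).tsum_le_tsum (fun n => ?_)
    (summable_norm_sum_mul_antidiagonal_of_summable_norm h1 h2).of_norm
  rw [term_mul]
  refine (norm_sum_le _ _).trans (le_of_eq (sum_congr rfl fun kl _ => norm_mul _ _))

lemma Sm.pow (hF : Sm x F) : ∀ k : ℕ, Sm x (F ^ k)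
  | 0 => by simpa using Sm_one x
  | k + 1 => by rw [pow_succ]; exact (hF.pow k).mul hF

lemma ev_pow (hF : Sm x F) : ∀ k : ℕ, ev x (F ^ k) = ev x F ^ k
  | 0 => by simpa using ev_one x
  | k + 1 => by rw [pow_succ, ev_mul (hF.pow k) hF, ev_pow hF k, pow_succ]

lemma Nm_pow_le (hF : Sm x F) : ∀ k : ℕ, Nm x (F ^ k) ≤ Nm x F ^ k
  | 0 => by simpa using (Nm_one x).le
  | k + 1 => by
      rw [pow_succ, pow_succ]
      exact (Nm_mul_le (hF.pow k) hF).trans
        (mul_le_mul_of_nonneg_right (Nm_pow_le hF k) (Nm_nonneg _ _))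

lemma term_subst {J : ℝ⟦X⟧} (hJ : constantCoeff J = 0) (F : ℝ⟦X⟧) (x : ℝ) (n : ℕ) :
    coeff n (F.subst J : ℝ⟦X⟧) * x ^ n = ∑' k, coeff k F * (coeff n (J ^ k) * x ^ n) := by
  have hs := HasSubst.of_constantCoeff_zero' hJ
  rw [coeff_subst' hs, ← tsum_eq_finsum (L := SummationFilter.unconditional ℕ)
    (coeff_subst_finite' hs F n), ← tsum_mul_right]
  exact tsum_congr fun k => by rw [smul_eq_mul, mul_assoc]

/-- Composition of absolutely convergent series. -/
lemma subst_bounds {J : ℝ⟦X⟧} {s : ℝ} (hJ : constantCoeff J = 0) (hJs : Sm x J)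
    (hle : Nm x J ≤ s) (hF : Sm s F) :
    Sm x (F.subst J) ∧ Nm x (F.subst J) ≤ Nm s F ∧ ev x (F.subst J) = ev (ev x J) F := by
  have hs0 : 0 ≤ s := (Nm_nonneg _ _).trans hle
  set a : ℕ × ℕ → ℝ := fun p => coeff p.1 F * (coeff p.2 (J ^ p.1) * x ^ p.2) with ha
  have hrow : ∀ k, Summable fun n => ‖a (k, n)‖ := by
    intro k
    simp only [ha, norm_mul (coeff k F)]
    exact (hJs.pow k).mul_left _
  have hrowle : ∀ k, ∑' n, ‖a (k, n)‖ ≤ ‖coeff k F * s ^ k‖ := by
    intro k
    simp only [ha, norm_mul (coeff k F)]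
    rw [tsum_mul_left]
    refine mul_le_mul_of_nonneg_left ?_ (norm_nonneg _)
    refine (Nm_pow_le hJs k).trans ?_
    rw [norm_pow, Real.norm_of_nonneg hs0]
    exact pow_le_pow_left₀ (Nm_nonneg _ _) hle k
  have hrows : Summable fun k => ∑' n, ‖a (k, n)‖ :=
    Summable.of_nonneg_of_le (fun k => tsum_nonneg fun _ => norm_nonneg _) hrowle hF
  have hsum : Summable fun p => ‖a p‖ :=
    (summable_prod_of_nonneg fun _ => norm_nonneg _).2 ⟨hrow, hrows⟩
  have hcol : ∀ n, Summable fun k => ‖a (k, n)‖ := fun n => hsum.prod_symm.prod_factor n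
  have hcols : Summable fun n => ∑' k, ‖a (k, n)‖ := hsum.prod_symm.prod
  have hle' : ∀ n, ‖coeff n (F.subst J : ℝ⟦X⟧) * x ^ n‖ ≤ ∑' k, ‖a (k, n)‖ := by
    intro n
    rw [term_subst hJ]
    exact norm_tsum_le_tsum_norm (hcol n)
  have h1 : Sm x (F.subst J) :=
    Summable.of_nonneg_of_le (fun _ => norm_nonneg _) hle' hcols
  refine ⟨h1, ?_, ?_⟩
  · refine (h1.tsum_le_tsum hle' hcols).trans ?_
    rw [Summable.tsum_comm (f := fun k n => ‖a (k, n)‖) hsum]
    exact hrows.tsum_le_tsum hrowle hF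
  · simp only [ev, term_subst hJ]
    rw [Summable.tsum_comm (f := fun k n => a (k, n)) hsum.of_norm]
    refine tsum_congr fun k => ?_
    simp only [ha]
    rw [tsum_mul_left]
    congr 1
    exact ev_pow hJs k

/-- Neumann series. -/
lemma exists_inv {W : ℝ⟦X⟧} (hW : constantCoeff W = 0) (hWs : Sm x W) (hlt : Nm x W < 1) :
    ∃ H : ℝ⟦X⟧, H * (1 - W) = 1 ∧ Sm x H := by
  have hs := HasSubst.of_constantCoeff_zero' hW
  refine ⟨(mk 1 : ℝ⟦X⟧).subst W, ?_, (subst_bounds hW hWs le_rfl ?_).1⟩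
  · have := congrArg (substAlgHom (R := ℝ) hs) (mk_one_mul_one_sub_eq_one ℝ)
    rwa [map_mul, map_sub, map_one, substAlgHom_X, coe_substAlgHom] at this
  · simp only [Sm, coeff_mk, Pi.one_apply, one_mul, norm_pow,
      Real.norm_of_nonneg (Nm_nonneg x W)]
    exact summable_geometric_of_lt_one (Nm_nonneg _ _) hlt

/-- Everywhere convergent series. -/
def Ent (F : ℝ⟦X⟧) : Prop := ∀ x, Sm x F

lemma Ent.derivative (hF : Ent F) : Ent (d⁄dX ℝ F) := by
  intro x
  set s := |x| + 1 with hs
  have hs0 : 0 < s := by positivity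
  refine Sm.mono (x := s) ?_ (by rw [abs_of_pos hs0]; linarith)
  have h1 : Summable fun n => ‖coeff (n + 1) F * (2 * s) ^ (n + 1)‖ :=
    (summable_nat_add_iff 1).2 (hF (2 * s))
  refine Summable.of_nonneg_of_le (fun _ => norm_nonneg _) (fun n => ?_) (h1.mul_right s⁻¹)
  rw [coeff_derivative, mul_assoc, norm_mul, norm_mul (coeff _ _), mul_assoc]
  refine mul_le_mul_of_nonneg_left ?_ (norm_nonneg _)
  rw [Real.norm_of_nonneg (by positivity), Real.norm_of_nonneg (by positivity), mul_pow,
    pow_succ s, mul_assoc, mul_assoc, mul_inv_cancel₀ hs0.ne', mul_one]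
  refine mul_le_mul_of_nonneg_right ?_ (by positivity)
  exact_mod_cast (Nat.lt_two_pow_self (n := n + 1)).le

lemma Ent.hasDerivAt (hF : Ent F) (x : ℝ) :
    HasDerivAt (fun y => ev y F) (ev x (d⁄dX ℝ F)) x := by
  set s := |x| + 1 with hs
  have hs0 : 0 < s := by positivity
  have hD := hF.derivative
  have hu : Summable fun n : ℕ => ‖coeff n F * (n * s ^ (n - 1))‖ := by
    rw [← summable_nat_add_iff 1]
    refine (hD s).congr fun n => ?_
    rw [coeff_derivative, mul_assoc]
    simp
  have hx : x ∈ Set.Ioo (-s) s := by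
    have := abs_lt.1 (show |x| < s by linarith)
    exact this
  have h := hasDerivAt_tsum_of_isPreconnected (g := fun n y => coeff n F * y ^ n)
    (g' := fun n y => coeff n F * (n * y ^ (n - 1))) hu isOpen_Ioo isPreconnected_Ioo
    (fun n y _ => (hasDerivAt_pow n y).const_mul _) (fun n y hy => by
      rw [norm_mul, norm_mul, norm_mul, norm_mul, norm_pow, norm_pow]
      have : ‖y‖ ≤ ‖s‖ := by
        rw [Real.norm_of_nonneg hs0.le]
        exact (abs_lt.2 hy).le
      gcongr) hx (hF x).of_norm hx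
  suffices hh : ev x (d⁄dX ℝ F) = ∑' n : ℕ, coeff n F * (n * x ^ (n - 1)) by
    rw [hh]
    exact h
  have hu' : Summable fun n : ℕ => coeff n F * (n * x ^ (n - 1)) := by
    rw [← summable_nat_add_iff 1]
    refine (hD x).of_norm.congr fun n => ?_
    rw [coeff_derivative, mul_assoc]
    simp
  rw [hu'.tsum_eq_zero_add, ev]
  simp only [Nat.cast_zero, zero_mul, mul_zero, zero_add]
  refine tsum_congr fun n => ?_
  rw [coeff_derivative, mul_assoc]
  simp

lemma Ent.continuous (hF : Ent F) : Continuous fun y => ev y F :=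
  continuous_iff_continuousAt.2 fun x => (hF.hasDerivAt x).continuousAt

/-- The quotient by `c - X`. -/
noncomputable def quo (c : ℝ) (F : ℝ⟦X⟧) : ℝ⟦X⟧ := F * mk fun n => (c⁻¹) ^ (n + 1)

lemma mul_quo {c : ℝ} (hc : c ≠ 0) (F : ℝ⟦X⟧) : (C c - X) * quo c F = F := by
  have : (C c - X) * (mk fun n => (c⁻¹) ^ (n + 1) : ℝ⟦X⟧) = 1 := by
    ext n
    rw [sub_mul, map_sub, coeff_C_mul, coeff_mk]
    cases n with
    | zero => simp [hc]
    | succ n =>
      rw [coeff_succ_X_mul, coeff_mk, coeff_one, if_neg (by omega), pow_succ _ (n + 1)]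
      field_simp
      ring
  rw [quo, mul_left_comm, this, mul_one]

lemma coeff_quo {c : ℝ} (hc : c ≠ 0) (F : ℝ⟦X⟧) (n : ℕ) :
    coeff n (quo c F) * c ^ (n + 1) = ∑ k ∈ range (n + 1), coeff k F * c ^ k := by
  rw [quo, coeff_mul, sum_mul, Finset.Nat.sum_antidiagonal_eq_sum_range_succ
    (fun i j => coeff i F * coeff j (mk fun n => (c⁻¹) ^ (n + 1) : ℝ⟦X⟧) * c ^ (n + 1))]
  refine sum_congr rfl fun k hk => ?_
  have hk' : k ≤ n := by have := mem_range.1 hk; omega
  rw [coeff_mk, show n + 1 = k + (n - k + 1) by omega, pow_add c k, inv_pow]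
  field_simp

lemma coeff_quo_tail {c : ℝ} (hc : c ≠ 0) (hF : Sm c F) (h0 : ev c F = 0) (n : ℕ) :
    coeff n (quo c F) * c ^ (n + 1) = -∑' k, coeff (k + (n + 1)) F * c ^ (k + (n + 1)) := by
  have := hF.of_norm.sum_add_tsum_nat_add (n + 1)
  rw [coeff_quo hc]
  unfold ev at h0
  linarith

lemma Ent.quo {c : ℝ} (hc : 0 < c) (hF : Ent F) (h0 : ev c F = 0) : Ent (quo c F) := by
  intro x
  set s := |x| + c with hs
  have hs0 : 0 < s := by positivity
  have hcs : c ≤ 2 * s := by have := abs_nonneg x; linarith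
  refine Sm.mono (x := s) ?_ (by rw [abs_of_pos hs0]; linarith)
  have hgeo : Summable fun n : ℕ => Nm (2 * s) F / (2 * s) * (1 / 2 : ℝ) ^ n :=
    summable_geometric_two.mul_left _
  refine Summable.of_nonneg_of_le (fun _ => norm_nonneg _) (fun n => ?_) hgeo
  have h1 : Summable fun k => ‖coeff (k + (n + 1)) F * c ^ (k + (n + 1))‖ :=
    (summable_nat_add_iff (n + 1)).2 (hF c)
  have h2 : Summable fun k => ‖coeff (k + (n + 1)) F * (2 * s) ^ (k + (n + 1))‖ :=
    (summable_nat_add_iff (n + 1)).2 (hF (2 * s))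
  have h3 : ‖coeff n (Pool.Agent.MP_9d63a4_co.quo c F) * c ^ (n + 1)‖ ≤
      Nm (2 * s) F * (c / (2 * s)) ^ (n + 1) := by
    rw [coeff_quo_tail hc.ne' (hF c) h0, norm_neg]
    refine (norm_tsum_le_tsum_norm h1).trans ?_
    have h4 : ∑' k, ‖coeff (k + (n + 1)) F * (2 * s) ^ (k + (n + 1))‖ ≤ Nm (2 * s) F := by
      have := Summable.sum_add_tsum_nat_add (n + 1) (hF (2 * s))
      have h5 : 0 ≤ ∑ i ∈ range (n + 1), ‖coeff i F * (2 * s) ^ i‖ :=
        sum_nonneg fun _ _ => norm_nonneg _
      unfold Nm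
      linarith
    refine le_trans ?_ (mul_le_mul_of_nonneg_right h4 (by positivity))
    rw [← tsum_mul_right]
    refine h1.tsum_le_tsum (fun k => ?_) (h2.mul_right _)
    rw [norm_mul, norm_mul, mul_assoc]
    refine mul_le_mul_of_nonneg_left ?_ (norm_nonneg _)
    rw [Real.norm_of_nonneg (by positivity), Real.norm_of_nonneg (by positivity), pow_add,
      pow_add (2 * s) k, mul_assoc, ← mul_pow (2 * s), mul_div_cancel₀ _ (by positivity)]
    gcongr
  rw [norm_mul, Real.norm_of_nonneg (by positivity : (0 : ℝ) ≤ c ^ (n + 1)), div_pow,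
    ← mul_div_assoc, le_div_iff₀ (by positivity)] at h3
  have h6 : ‖coeff n (Pool.Agent.MP_9d63a4_co.quo c F)‖ * (2 * s) ^ (n + 1) ≤ Nm (2 * s) F := by
    have hp : (0 : ℝ) < c ^ (n + 1) := by positivity
    nlinarith
  rw [norm_mul, Real.norm_of_nonneg (by positivity : (0 : ℝ) ≤ s ^ n), div_mul_eq_mul_div,
    le_div_iff₀ (by positivity)]
  calc ‖coeff n (Pool.Agent.MP_9d63a4_co.quo c F)‖ * s ^ n * (2 * s)
      = ‖coeff n (Pool.Agent.MP_9d63a4_co.quo c F)‖ * (2 * s) ^ (n + 1) * (1 / 2) ^ n := by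
        rw [pow_succ, mul_pow, one_div, inv_pow]
        field_simp
    _ ≤ _ := mul_le_mul_of_nonneg_right h6 (by positivity)

lemma Nm_eq_ev (hx : 0 ≤ x) (hF : ∀ n, 0 ≤ coeff n F) : Nm x F = ev x F :=
  tsum_congr fun n => Real.norm_of_nonneg (mul_nonneg (hF n) (pow_nonneg hx n))

lemma coeff_mul_nonneg (hF : ∀ n, 0 ≤ coeff n F) (hG : ∀ n, 0 ≤ coeff n G) (n : ℕ) :
    0 ≤ coeff n (F * G) := by
  rw [coeff_mul]
  exact sum_nonneg fun _ _ => mul_nonneg (hF _) (hG _)

lemma coeff_pow_nonneg (hF : ∀ n, 0 ≤ coeff n F) : ∀ k n : ℕ, 0 ≤ coeff n (F ^ k)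
  | 0, n => by rw [pow_zero, coeff_one]; split_ifs <;> norm_num
  | k + 1, n => by rw [pow_succ]; exact coeff_mul_nonneg (coeff_pow_nonneg hF k) hF n

lemma coeff_subst_nonneg {J : ℝ⟦X⟧} (hJ : constantCoeff J = 0) (hF : ∀ n, 0 ≤ coeff n F)
    (hJ' : ∀ n, 0 ≤ coeff n J) (n : ℕ) : 0 ≤ coeff n (F.subst J : ℝ⟦X⟧) := by
  rw [coeff_subst' (HasSubst.of_constantCoeff_zero' hJ)]
  exact finsum_nonneg fun k => mul_nonneg (hF k) (coeff_pow_nonneg hJ' k n)

lemma coeff_subst_congr {J J' : ℝ⟦X⟧} (hJ : constantCoeff J = 0) (hJ' : constantCoeff J' = 0)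
    {N : ℕ} (h : ∀ n < N, coeff n J = coeff n J') (F : ℝ⟦X⟧) {n : ℕ} (hn : n < N) :
    coeff n (F.subst J : ℝ⟦X⟧) = coeff n (F.subst J' : ℝ⟦X⟧) := by
  rw [coeff_subst' (HasSubst.of_constantCoeff_zero' hJ),
    coeff_subst' (HasSubst.of_constantCoeff_zero' hJ')]
  refine finsum_congr fun k => ?_
  have h1 : (X : ℝ⟦X⟧) ^ N ∣ J - J' := X_pow_dvd_iff.2 fun m hm => by rw [map_sub, h m hm, sub_self]
  have h2 := X_pow_dvd_iff.1 (h1.trans (sub_dvd_pow_sub_pow J J' k)) n hn
  rw [map_sub, sub_eq_zero] at h2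
  rw [h2]

/-- Convergence of the solution of `I = X * Φ(I)` up to the tangency point. -/
lemma lagrange_bound {I Φ : ℝ⟦X⟧} {ρ c : ℝ} (hρ : 0 ≤ ρ) (hc : 0 ≤ c) (hI : constantCoeff I = 0)
    (heq : I = X * Φ.subst I) (hΦ : Sm c Φ) (hle : ρ * Nm c Φ ≤ c) : Sm ρ I ∧ Nm ρ I ≤ c := by
  have key : ∀ N, ∑ n ∈ range N, ‖coeff n I * ρ ^ n‖ ≤ c := by
    intro N
    induction N with
    | zero => simpa using hc
    | succ N ih =>
      set T : ℝ⟦X⟧ := mk fun n => if n < N then coeff n I else 0 with hT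
      have hT0 : constantCoeff T = 0 := by
        rw [← coeff_zero_eq_constantCoeff_apply, hT, coeff_mk]
        split_ifs
        · simpa using hI
        · rfl
      have hz : ∀ n ∉ range N, ‖coeff n T * ρ ^ n‖ = 0 := by
        intro n hn
        rw [hT, coeff_mk, if_neg (by simpa using hn)]
        simp
      have hTs : Sm ρ T := summable_of_ne_finset_zero hz
      have hTN : Nm ρ T ≤ c := by
        rw [Nm, tsum_eq_sum hz]
        refine le_trans (le_of_eq (sum_congr rfl fun n hn => ?_)) ih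
        rw [hT, coeff_mk, if_pos (mem_range.1 hn)]
      obtain ⟨b1, b2, -⟩ := subst_bounds hT0 hTs hTN hΦ
      rw [sum_range_succ']
      have e0 : ‖coeff 0 I * ρ ^ 0‖ = 0 := by simp [hI]
      have e1 : ∀ n ∈ range N, ‖coeff (n + 1) I * ρ ^ (n + 1)‖ =
          ρ * ‖coeff n (Φ.subst T : ℝ⟦X⟧) * ρ ^ n‖ := by
        intro n hn
        conv_lhs => rw [heq]
        rw [coeff_succ_X_mul, coeff_subst_congr hI hT0 (N := N)
          (fun m hm => by rw [hT, coeff_mk, if_pos hm]) Φ (mem_range.1 hn), pow_succ, ← mul_assoc,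
          norm_mul _ ρ, Real.norm_of_nonneg hρ, mul_comm]
      rw [e0, add_zero, sum_congr rfl e1, ← mul_sum]
      refine le_trans (mul_le_mul_of_nonneg_left ?_ hρ) hle
      exact (b1.sum_le_tsum _ fun _ _ => norm_nonneg _).trans b2
  exact ⟨summable_of_sum_range_le (fun _ => norm_nonneg _) key,
    Real.tsum_le_of_sum_range_le (fun _ => norm_nonneg _) key⟩

end Pool.Agent.MP_9d63a4_co

end MrgPart5

-- ======== part 6: formerly Pool.Agent.MP_9d63a4_co.Asymp
section MrgPart6

/-! Asymptotics of `R n n`. -/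

namespace Pool.Agent.MP_9d63a4_co

open Finset PowerSeries Filter Topology

/-- The series of `J₁(2 √x) / √x`. -/
noncomputable def qs : ℝ⟦X⟧ :=
  mk fun k => (-1) ^ k / ((k.factorial : ℝ) * ((k + 1).factorial : ℝ))

lemma coeff_bessel (k : ℕ) : coeff k (bessel ℝ) = (-1) ^ k / (k.factorial : ℝ) ^ 2 := by
  simp [bessel]

lemma derivative_phi : d⁄dX ℝ (Psi (1 : ℝ) 0) = bessel ℝ := by
  have h1 : Psi (1 : ℝ) 0 = integ (rescale (-0) (exp ℝ) * rescale 1 (bessel ℝ)) := rfl
  rw [h1, derivative_integ, neg_zero, rescale_zero_apply, rescale_one]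
  simp

lemma phi_eq : Psi (1 : ℝ) 0 = X * qs := by
  apply eq_of_derivative_eq
  · rw [derivative_phi]
    ext k
    rw [coeff_derivative, coeff_succ_X_mul, qs, coeff_mk, coeff_bessel, Nat.factorial_succ]
    push_cast
    field_simp
  · simp [constantCoeff_Psi]

lemma norm_bessel_term (x : ℝ) (k : ℕ) :
    ‖coeff k (bessel ℝ) * x ^ k‖ = |x| ^ k / (k.factorial : ℝ) ^ 2 := by
  rw [coeff_bessel, norm_mul, norm_div, norm_pow, norm_pow, norm_pow, norm_neg, norm_one, one_pow,
    Real.norm_natCast, Real.norm_eq_abs]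
  ring

lemma norm_qs_term (x : ℝ) (k : ℕ) :
    ‖coeff k qs * x ^ k‖ = |x| ^ k / ((k.factorial : ℝ) * ((k + 1).factorial : ℝ)) := by
  rw [qs, coeff_mk, norm_mul, norm_div, norm_pow, norm_pow, norm_neg, norm_one, one_pow, norm_mul,
    Real.norm_natCast, Real.norm_natCast, Real.norm_eq_abs]
  ring

lemma ent_bessel : Ent (bessel ℝ) := by
  intro x
  refine Summable.of_nonneg_of_le (fun _ => norm_nonneg _) (fun k => ?_)
    (Real.summable_pow_div_factorial |x|)
  rw [norm_bessel_term]
  have h1 : (1 : ℝ) ≤ k.factorial := by exact_mod_cast k.factorial_pos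
  gcongr
  nlinarith

lemma ent_qs : Ent qs := by
  intro x
  refine Summable.of_nonneg_of_le (fun _ => norm_nonneg _) (fun k => ?_)
    (Real.summable_pow_div_factorial |x|)
  rw [norm_qs_term]
  have h1 : (1 : ℝ) ≤ k.factorial := by exact_mod_cast k.factorial_pos
  have h2 : (1 : ℝ) ≤ (k + 1).factorial := by exact_mod_cast (k + 1).factorial_pos
  gcongr
  nlinarith

lemma ent_phi : Ent (Psi (1 : ℝ) 0) := fun x => by rw [phi_eq]; exact (Sm_X x).mul (ent_qs x)

lemma bessel_term_le {x : ℝ} (h0 : 0 ≤ x) (h1 : x ≤ 3 / 2) : ∀ k : ℕ,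
    ‖coeff (k + 2) (bessel ℝ) * x ^ (k + 2)‖ ≤ 9 / 16 * (1 / 6) ^ k
  | 0 => by
      rw [norm_bessel_term, abs_of_nonneg h0]
      norm_num [Nat.factorial]
      nlinarith
  | k + 1 => by
      have ih := bessel_term_le h0 h1 k
      rw [norm_bessel_term, abs_of_nonneg h0] at ih ⊢
      have e : x ^ (k + 1 + 2) / ((k + 1 + 2).factorial : ℝ) ^ 2 =
          x ^ (k + 2) / ((k + 2).factorial : ℝ) ^ 2 * (x / ((k : ℝ) + 3) ^ 2) := by
        rw [show k + 1 + 2 = (k + 2) + 1 by omega, Nat.factorial_succ, pow_succ]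
        push_cast
        field_simp
        ring
      have e2 : x / ((k : ℝ) + 3) ^ 2 ≤ 1 / 6 := by
        rw [div_le_iff₀ (by positivity)]
        have : (0 : ℝ) ≤ k := by positivity
        nlinarith
      rw [e, pow_succ (1 / 6 : ℝ), ← mul_assoc]
      exact mul_le_mul ih e2 (by positivity) (by positivity)

lemma qs_term_le {x : ℝ} (h0 : 0 ≤ x) (h1 : x ≤ 3 / 2) : ∀ k : ℕ,
    ‖coeff (k + 1) qs * x ^ (k + 1)‖ ≤ x / 2 * (1 / 4) ^ k
  | 0 => by
      rw [norm_qs_term, abs_of_nonneg h0]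
      norm_num [Nat.factorial]
  | k + 1 => by
      have ih := qs_term_le h0 h1 k
      rw [norm_qs_term, abs_of_nonneg h0] at ih ⊢
      have e : x ^ (k + 1 + 1) / (((k + 1 + 1).factorial : ℝ) * ((k + 1 + 1 + 1).factorial : ℝ)) =
          x ^ (k + 1) / (((k + 1).factorial : ℝ) * ((k + 1 + 1).factorial : ℝ)) *
            (x / (((k : ℝ) + 2) * ((k : ℝ) + 3))) := by
        rw [Nat.factorial_succ (k + 1 + 1), Nat.factorial_succ (k + 1), pow_succ]
        push_cast
        field_simp
        ring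
      have e2 : x / (((k : ℝ) + 2) * ((k : ℝ) + 3)) ≤ 1 / 4 := by
        rw [div_le_iff₀ (by positivity)]
        have : (0 : ℝ) ≤ k := by positivity
        nlinarith
      rw [e, pow_succ (1 / 4 : ℝ), ← mul_assoc]
      exact mul_le_mul ih e2 (by positivity) (by positivity)

lemma bessel_tail_le {x : ℝ} (h0 : 0 ≤ x) (h1 : x ≤ 3 / 2) (n : ℕ) :
    ‖∑' k, coeff (k + (n + 2)) (bessel ℝ) * x ^ (k + (n + 2))‖ ≤ 27 / 40 * (1 / 6) ^ n := by
  have hg : HasSum (fun k : ℕ => 9 / 16 * (1 / 6 : ℝ) ^ n * (1 / 6) ^ k)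
      (9 / 16 * (1 / 6 : ℝ) ^ n * (1 - 1 / 6)⁻¹) :=
    (hasSum_geometric_of_lt_one (by norm_num) (by norm_num)).mul_left _
  refine (tsum_of_norm_bounded hg fun k => ?_).trans (le_of_eq (by ring))
  have := bessel_term_le h0 h1 (k + n)
  rw [pow_add (1 / 6 : ℝ)] at this
  rw [← add_assoc]
  linarith

lemma ev_zero (F : ℝ⟦X⟧) : ev 0 F = constantCoeff F := by
  rw [ev, tsum_eq_single 0 (fun n hn => by simp [hn])]
  simp

lemma exists_root : ∃ c : ℝ, 0 < c ∧ c < 3 / 2 ∧ ev c (bessel ℝ) = 0 := by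
  have h0 : ev 0 (bessel ℝ) = 1 := by
    rw [ev_zero, ← coeff_zero_eq_constantCoeff_apply, coeff_bessel]; simp
  have h1 : ev (3 / 2) (bessel ℝ) < 0 := by
    have h2 := (ent_bessel (3 / 2)).of_norm.sum_add_tsum_nat_add 4
    have h3 := bessel_tail_le (x := 3 / 2) (by norm_num) le_rfl 2
    have h4 := (abs_le.1 h3).2
    rw [ev, ← h2]
    simp only [sum_range_succ, range_zero, sum_empty, coeff_bessel] at h4 ⊢
    norm_num [Nat.factorial] at h4 ⊢
    linarith
  obtain ⟨c, hc, hc0⟩ := intermediate_value_Ioo' (by norm_num : (0 : ℝ) ≤ 3 / 2)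
    ent_bessel.continuous.continuousOn (show (0 : ℝ) ∈ Set.Ioo _ _ from ⟨h1, by rw [h0]; norm_num⟩)
  exact ⟨c, hc.1, hc.2, hc0⟩

lemma Nm_le_of_succ {x b : ℝ} {W : ℝ⟦X⟧} (hW : constantCoeff W = 0) (hs : Sm x W) {u : ℕ → ℝ}
    (hu : HasSum u b) (h : ∀ n, ‖coeff (n + 1) W * x ^ (n + 1)‖ ≤ u n) : Nm x W ≤ b := by
  rw [Nm, Summable.tsum_eq_zero_add hs, ← hu.tsum_eq]
  have : ‖coeff 0 W * x ^ 0‖ = 0 := by simp [hW]
  rw [this, zero_add]
  exact ((summable_nat_add_iff 1).2 hs).tsum_le_tsum h hu.summable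

section Root

variable {c : ℝ} (hc0 : 0 < c) (hc1 : c < 3 / 2) (hc : ev c (bessel ℝ) = 0)
include hc0 hc1 hc

lemma W1_facts : constantCoeff (1 - C c * quo c (bessel ℝ)) = 0 ∧
    Sm c (1 - C c * quo c (bessel ℝ)) ∧ Nm c (1 - C c * quo c (bessel ℝ)) < 1 := by
  have h1 : constantCoeff (1 - C c * quo c (bessel ℝ)) = 0 := by
    have := coeff_quo hc0.ne' (bessel ℝ) 0
    simp only [zero_add, pow_one, range_one, sum_singleton, pow_zero, mul_one, coeff_bessel,
      coeff_zero_eq_constantCoeff_apply] at this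
    rw [map_sub, map_one, map_mul, constantCoeff_C, mul_comm, this]
    simp
  have h2 : Sm c (1 - C c * quo c (bessel ℝ)) :=
    (Sm_one c).sub ((Sm_C c c).mul (ent_bessel.quo hc0 hc c))
  refine ⟨h1, h2, ?_⟩
  have hg : HasSum (fun k : ℕ => 27 / 40 * (1 / 6 : ℝ) ^ k) (27 / 40 * (1 - 1 / 6)⁻¹) :=
    (hasSum_geometric_of_lt_one (by norm_num) (by norm_num)).mul_left _
  refine (Nm_le_of_succ h1 h2 hg fun n => ?_).trans_lt (by norm_num)
  have e : coeff (n + 1) (1 - C c * quo c (bessel ℝ)) * c ^ (n + 1) =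
      -(coeff (n + 1) (quo c (bessel ℝ)) * c ^ (n + 1 + 1)) := by
    rw [map_sub, coeff_one, if_neg (by omega), coeff_C_mul]
    ring
  rw [e, coeff_quo_tail hc0.ne' (ent_bessel c) hc, neg_neg]
  exact bessel_tail_le hc0.le hc1.le n

lemma ev_bessel_pos {y : ℝ} (hy : |y| < c) : 0 < ev y (bessel ℝ) := by
  obtain ⟨-, h2, h3⟩ := W1_facts hc0 hc1 hc
  have hy' : |y| ≤ |c| := by rw [abs_of_pos hc0]; exact hy.le
  have hq := ent_bessel.quo hc0 hc y
  have h4 := (abs_le.1 ((abs_ev_le (h2.mono hy')).trans (Nm_mono h2 hy'))).2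
  rw [ev_sub (Sm_one y) ((Sm_C y c).mul hq), ev_one, ev_mul (Sm_C y c) hq, ev_C] at h4
  have h5 : 0 < ev y (quo c (bessel ℝ)) := by
    by_contra hneg
    have : c * ev y (quo c (bessel ℝ)) ≤ 0 := mul_nonpos_of_nonneg_of_nonpos hc0.le (not_lt.1 hneg)
    linarith
  rw [← mul_quo hc0.ne' (bessel ℝ), ev_mul ((Sm_C y c).sub (Sm_X y)) hq, ev_sub (Sm_C y c) (Sm_X y),
    ev_C, ev_X]
  exact mul_pos (by linarith [(abs_lt.1 hy).2]) h5

lemma phi_strictMono : StrictMonoOn (fun y => ev y (Psi (1 : ℝ) 0)) (Set.Icc (-c) c) := by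
  refine strictMonoOn_of_deriv_pos (convex_Icc _ _) ent_phi.continuous.continuousOn fun y hy => ?_
  rw [interior_Icc] at hy
  rw [(ent_phi.hasDerivAt y).deriv, derivative_phi]
  exact ev_bessel_pos hc0 hc1 hc (abs_lt.2 hy)

omit hc in
lemma W2_facts : constantCoeff (1 - qs) = 0 ∧ Sm c (1 - qs) ∧ Nm c (1 - qs) < 1 := by
  have h1 : constantCoeff (1 - qs) = 0 := by
    rw [map_sub, map_one, ← coeff_zero_eq_constantCoeff_apply, qs, coeff_mk]
    simp
  have h2 : Sm c (1 - qs) := (Sm_one c).sub (ent_qs c)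
  refine ⟨h1, h2, ?_⟩
  have hg : HasSum (fun k : ℕ => c / 2 * (1 / 4 : ℝ) ^ k) (c / 2 * (1 - 1 / 4)⁻¹) :=
    (hasSum_geometric_of_lt_one (by norm_num) (by norm_num)).mul_left _
  refine (Nm_le_of_succ h1 h2 hg fun n => ?_).trans_lt (by linarith)
  rw [map_sub, coeff_one, if_neg (by omega), zero_sub, neg_mul, norm_neg]
  exact qs_term_le hc0.le hc1.le n

end Root

lemma qs_ode : X * d⁄dX ℝ (d⁄dX ℝ qs) + 2 * d⁄dX ℝ qs + qs = 0 := by
  ext k
  have h2 : (2 : ℝ⟦X⟧) = C 2 := rfl
  rw [map_add, map_add, h2, coeff_C_mul, coeff_derivative]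
  cases k with
  | zero => simp [qs, Nat.factorial]; norm_num
  | succ k =>
    rw [coeff_succ_X_mul, coeff_derivative, coeff_derivative, qs, coeff_mk, coeff_mk, map_zero,
      Nat.factorial_succ (k + 1 + 1), Nat.factorial_succ (k + 1), pow_succ _ (k + 1)]
    push_cast
    field_simp
    ring

lemma inv_qs_nonneg {Φ : ℝ⟦X⟧} (h : Φ * qs = 1) (n : ℕ) : 0 ≤ coeff n Φ := by
  set w : ℝ⟦X⟧ := -(d⁄dX ℝ qs * Φ) with hw
  have h1 : d⁄dX ℝ Φ = w * Φ := by
    have := congrArg (d⁄dX ℝ) h
    rw [Derivation.leibniz, derivative_one, smul_eq_mul, smul_eq_mul] at this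
    calc d⁄dX ℝ Φ = (Φ * qs) * d⁄dX ℝ Φ := by rw [h, one_mul]
      _ = Φ * (Φ * d⁄dX ℝ qs + qs * d⁄dX ℝ Φ) + w * Φ := by rw [hw]; ring
      _ = _ := by rw [this, mul_zero, zero_add]
  have h2 : X * d⁄dX ℝ w + C 2 * w = 1 + X * (w * w) := by
    have h3 : d⁄dX ℝ w = -(d⁄dX ℝ (d⁄dX ℝ qs) * Φ) + w * w := by
      conv_lhs => rw [hw]
      rw [map_neg, Derivation.leibniz, h1, smul_eq_mul, smul_eq_mul, hw]
      ring
    have h4 : (C 2 : ℝ⟦X⟧) = 2 := rfl
    rw [h3, h4]
    linear_combination (-Φ) * qs_ode + h + 2 * hw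
  have h5 : ∀ n, 0 ≤ coeff n w := by
    intro n
    induction n using Nat.strong_induction_on with
    | _ n ih =>
      have h6 := congrArg (coeff n) h2
      cases n with
      | zero =>
        simp only [map_add, coeff_zero_X_mul, coeff_C_mul, coeff_one, if_true] at h6
        linarith
      | succ n =>
        rw [map_add, map_add, coeff_succ_X_mul, coeff_succ_X_mul, coeff_C_mul, coeff_derivative,
          coeff_one, if_neg (by omega), zero_add, coeff_mul] at h6
        have h7 : 0 ≤ ∑ p ∈ antidiagonal n, coeff p.1 w * coeff p.2 w :=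
          sum_nonneg fun p hp => by
            have := mem_antidiagonal.1 hp
            exact mul_nonneg (ih _ (by omega)) (ih _ (by omega))
        by_contra hneg
        have h8 : (0 : ℝ) ≤ n := by positivity
        nlinarith
  induction n using Nat.strong_induction_on with
  | _ n ih =>
    cases n with
    | zero =>
      have := congrArg constantCoeff h
      rw [map_mul, map_one, ← coeff_zero_eq_constantCoeff_apply qs, qs, coeff_mk] at this
      simp only [pow_zero, Nat.factorial_zero, zero_add, Nat.factorial_one, Nat.cast_one,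
        mul_one, div_one] at this
      rw [coeff_zero_eq_constantCoeff_apply, this]
      norm_num
    | succ n =>
      have h6 := congrArg (coeff n) h1
      rw [coeff_derivative, coeff_mul] at h6
      have h7 : 0 ≤ ∑ p ∈ antidiagonal n, coeff p.1 w * coeff p.2 Φ :=
        sum_nonneg fun p hp => by
          have := mem_antidiagonal.1 hp
          exact mul_nonneg (h5 _) (ih _ (by omega))
      by_contra hneg
      have h8 : (0 : ℝ) ≤ n := by positivity
      nlinarith

lemma coeff_G_diag (n : ℕ) : coeff n (G (1 : ℝ) 0) = (R n n : ℝ) / (n.factorial : ℝ) ^ 2 := by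
  rw [G, coeff_mk, sum_eq_single n]
  · simp [sq]
  · intro m hm hmn
    have : n - m ≠ 0 := by have := mem_range.1 hm; omega
    simp [this]
  · simp

theorem diag_tendsto {c : ℝ} (hc0 : 0 < c) (hc1 : c < 3 / 2) (hc : ev c (bessel ℝ) = 0) :
    0 < ev c (Psi (1 : ℝ) 0) ∧ Tendsto (fun n : ℕ => (R (n + 1) (n + 1) : ℝ) /
      ((n + 1).factorial : ℝ) ^ 2 * ((n : ℝ) + 1) * ev c (Psi (1 : ℝ) 0) ^ (n + 1)) atTop
        (𝓝 (1 / 2)) := by
  set φ := Psi (1 : ℝ) 0 with hφ
  set B := bessel ℝ with hB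
  set ρ := ev c φ with hρ
  obtain ⟨E, hE0, hE1, hE2⟩ := gf_solution (1 : ℝ) 0
  have hs : HasSubst E := HasSubst.of_constantCoeff_zero' hE0
  obtain ⟨a1, a2, a3⟩ := W1_facts hc0 hc1 hc
  obtain ⟨b1, b2, b3⟩ := W2_facts hc0 hc1
  obtain ⟨H, hH1, hH2⟩ := exists_inv a1 a2 a3
  obtain ⟨Φ, hΦ1, hΦ2⟩ := exists_inv b1 b2 b3
  rw [sub_sub_cancel] at hH1 hΦ1
  have hρq : ρ = c * ev c qs := by rw [hρ, hφ, phi_eq, ev_mul (Sm_X c) (ent_qs c), ev_X]
  have hqpos : 0 < ev c qs := by
    have := (abs_le.1 (abs_ev_le b2)).2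
    rw [ev_sub (Sm_one c) (ent_qs c), ev_one] at this
    linarith
  have hρ0 : 0 < ρ := by rw [hρq]; positivity
  refine ⟨hρ0, ?_⟩
  have hΦq : ev c Φ * ev c qs = 1 := by rw [← ev_mul hΦ2 (ent_qs c), hΦ1, ev_one]
  have hsub1 : (1 : ℝ⟦X⟧).subst E = (1 : ℝ⟦X⟧) := by
    rw [← coe_substAlgHom hs, map_one]
  have hsubC : ∀ r : ℝ, (C r : ℝ⟦X⟧).subst E = (C r : ℝ⟦X⟧) := fun r => subst_C r
  have hEeq : E = X * Φ.subst E := by
    have h1 : (X : ℝ⟦X⟧) = E * qs.subst E := by
      rw [← hE1, phi_eq, subst_mul hs, subst_X hs]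
    have h2 : (Φ.subst E : ℝ⟦X⟧) * qs.subst E = 1 := by rw [← subst_mul hs, hΦ1, hsub1]
    rw [h1, mul_assoc, mul_comm (qs.subst E), h2, mul_one]
  obtain ⟨hEs, hEN⟩ := lagrange_bound hρ0.le hc0.le hE0 hEeq hΦ2 (by
    rw [Nm_eq_ev hc0.le (inv_qs_nonneg hΦ1), hρq, mul_assoc, mul_comm (ev c qs), hΦq, mul_one])
  have hEv : ev ρ E = c := by
    have h1 := (subst_bounds hE0 hEs hEN (ent_phi c)).2.2
    rw [hE1, ev_X] at h1
    have h2 := abs_le.1 ((abs_ev_le hEs).trans hEN)
    exact (phi_strictMono hc0 hc1 hc).injOn h2 ⟨by linarith, le_rfl⟩ h1.symm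
  -- the double zero of `ρ - φ`
  set f1 := quo c B with hf1
  have ef1 : Ent f1 := ent_bessel.quo hc0 hc
  have hBf : (C c - X) * f1 = B := mul_quo hc0.ne' B
  have eP : Ent (C ρ - φ) := fun x => (Sm_C x ρ).sub (ent_phi x)
  have hP0 : ev c (C ρ - φ) = 0 := by rw [ev_sub (Sm_C c ρ) (ent_phi c), ev_C, hρ, sub_self]
  set g1 := quo c (C ρ - φ) with hg1
  have eg1 : Ent g1 := eP.quo hc0 hP0
  have hPg : (C c - X) * g1 = C ρ - φ := mul_quo hc0.ne' _
  have hlin : ev c (C c - X) = 0 := by rw [ev_sub (Sm_C c c) (Sm_X c), ev_C, ev_X, sub_self]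
  have slin : Sm c (C c - X) := (Sm_C c c).sub (Sm_X c)
  have hdlin : d⁄dX ℝ (C c - X : ℝ⟦X⟧) = -1 := by simp
  have hd1 : g1 = B + (C c - X) * d⁄dX ℝ g1 := by
    have := congrArg (d⁄dX ℝ) hPg
    rw [Derivation.leibniz, hdlin, map_sub, derivative_C, hφ, derivative_phi, smul_eq_mul,
      smul_eq_mul, ← hB] at this
    linear_combination -this
  have hg10 : ev c g1 = 0 := by
    rw [hd1, ev_add (ent_bessel c) (slin.mul (eg1.derivative c)), ev_mul slin (eg1.derivative c),
      hlin, hc]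
    simp
  set g := quo c g1 with hg
  have eg : Ent g := eg1.quo hc0 hg10
  have hgg : (C c - X) * g = g1 := mul_quo hc0.ne' _
  have hne : (C c - X : ℝ⟦X⟧) ≠ 0 := by
    intro h
    have := congrArg constantCoeff h
    simp at this
    exact hc0.ne' this
  have hf1g : f1 = 2 * g - (C c - X) * d⁄dX ℝ g := by
    apply mul_left_cancel₀ hne
    have := congrArg (d⁄dX ℝ) hgg
    rw [Derivation.leibniz, hdlin, smul_eq_mul, smul_eq_mul] at this
    linear_combination hBf - hd1 - hgg + (C c - X) * this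
  have hv1 : ev c f1 = 2 * ev c g := by
    have h2 : (2 : ℝ⟦X⟧) = C 2 := rfl
    rw [hf1g, h2, ev_sub ((Sm_C c 2).mul (eg c)) (slin.mul (eg.derivative c)),
      ev_mul slin (eg.derivative c), hlin, ev_mul (Sm_C c 2) (eg c), ev_C]
    simp
  have hv2 : ev c (d⁄dX ℝ B) = -ev c f1 := by
    have := congrArg (d⁄dX ℝ) hBf
    rw [Derivation.leibniz, hdlin, smul_eq_mul, smul_eq_mul] at this
    rw [← this, ev_add (slin.mul (ef1.derivative c)) ((ef1 c).mul (Sm_one c).neg),
      ev_mul slin (ef1.derivative c), hlin, mul_neg, mul_one, ev_neg]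
    simp
  set h := H * C c with hh
  have sh : Sm c h := hH2.mul (Sm_C c c)
  have hhf : h * f1 = 1 := by rw [hh, mul_assoc, hH1]
  have hv3 : ev c h * ev c f1 = 1 := by rw [← ev_mul sh (ef1 c), hhf, ev_one]
  set Ξ := -(g * d⁄dX ℝ B * (h * h)) with hΞ
  have sΞ : Sm c Ξ := (((eg c).mul (ent_bessel.derivative c)).mul (sh.mul sh)).neg
  have hvΞ : ev c Ξ = 1 / 2 := by
    rw [hΞ, ev_neg, ev_mul ((eg c).mul (ent_bessel.derivative c)) (sh.mul sh),
      ev_mul (eg c) (ent_bessel.derivative c), ev_mul sh sh, hv2]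
    have : ev c g = ev c f1 / 2 := by linarith
    rw [this]
    linear_combination (1 / 2 * (ev c h * ev c f1 + 1)) * hv3
  -- the formal identity
  have hG : HasSubst (G (1 : ℝ) 0) := HasSubst.of_constantCoeff_zero' (constantCoeff_G 1 0)
  have i1 : (B.subst E : ℝ⟦X⟧) * d⁄dX ℝ E = 1 := by
    have := congrArg (d⁄dX ℝ) hE1
    rwa [derivative_subst hs, derivative_phi, derivative_X] at this
  have i2 : d⁄dX ℝ (d⁄dX ℝ E) = d⁄dX ℝ E * d⁄dX ℝ (G (1 : ℝ) 0) := by
    conv_lhs => rw [← hE2]
    rw [derivative_subst hG, derivative_exp, hE2]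
  have i3 : (B.subst E : ℝ⟦X⟧) * (d⁄dX ℝ E * d⁄dX ℝ (G (1 : ℝ) 0)) +
      d⁄dX ℝ E * ((d⁄dX ℝ B).subst E * d⁄dX ℝ E) = 0 := by
    have := congrArg (d⁄dX ℝ) i1
    rwa [Derivation.leibniz, derivative_subst hs, i2, derivative_one, smul_eq_mul,
      smul_eq_mul] at this
  have j1 : (C c - E) * f1.subst E = (B.subst E : ℝ⟦X⟧) := by
    rw [← hBf, subst_mul hs, subst_sub hs, hsubC, subst_X hs]
  have j2 : (C c - E) * ((C c - E) * g.subst E) = (C ρ - X : ℝ⟦X⟧) := by
    rw [← hE1, ← hφ, ← hsubC ρ, ← subst_sub hs, ← hPg, ← hgg, subst_mul hs, subst_mul hs,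
      subst_sub hs, hsubC, subst_X hs]
  have j3 : (h.subst E : ℝ⟦X⟧) * f1.subst E = 1 := by rw [← subst_mul hs, hhf, hsub1]
  have j4 : (Ξ.subst E : ℝ⟦X⟧) = -(g.subst E * (d⁄dX ℝ B).subst E * (h.subst E * h.subst E)) := by
    rw [hΞ, ← coe_substAlgHom hs, map_neg, map_mul, map_mul, map_mul]
  have main : (C ρ - X) * d⁄dX ℝ (G (1 : ℝ) 0) = (Ξ.subst E : ℝ⟦X⟧) := by
    set b : ℝ⟦X⟧ := B.subst E
    set b' : ℝ⟦X⟧ := (d⁄dX ℝ B).subst E
    set e : ℝ⟦X⟧ := d⁄dX ℝ E
    set r : ℝ⟦X⟧ := d⁄dX ℝ (G (1 : ℝ) 0)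
    set ff : ℝ⟦X⟧ := f1.subst E
    set gg : ℝ⟦X⟧ := g.subst E
    set hh : ℝ⟦X⟧ := h.subst E
    have k1 : r * (b * b) = -b' := by
      linear_combination (b * b) * i3 - (r * b * b + b' * (b * e + 1)) * i1
    rw [j4, ← j2]
    linear_combination (gg * hh * hh) * k1 + (gg * hh * hh * r * ((C c - E) * ff + b)) * j1 -
      ((C c - E) * (C c - E) * gg * r * (hh * ff + 1)) * j3
  obtain ⟨s1, -, s3⟩ := subst_bounds hE0 hEs hEN sΞ
  rw [hEv, hvΞ] at s3
  have part : ∀ n : ℕ, ∑ k ∈ range (n + 1), coeff k (Ξ.subst E : ℝ⟦X⟧) * ρ ^ k =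
      coeff n (d⁄dX ℝ (G (1 : ℝ) 0)) * ρ ^ (n + 1) := by
    intro n
    rw [← main]
    induction n with
    | zero =>
      rw [sum_range_one, sub_mul, map_sub, coeff_C_mul, coeff_zero_X_mul]
      ring
    | succ n ih =>
      rw [sum_range_succ, ih, sub_mul, map_sub, coeff_C_mul, coeff_succ_X_mul]
      ring
  have lim := (tendsto_add_atTop_iff_nat 1).2 s1.of_norm.hasSum.tendsto_sum_nat
  unfold ev at s3
  rw [s3] at lim
  refine lim.congr fun n => ?_
  rw [part, coeff_derivative, coeff_G_diag]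

lemma J0_eq (x : ℝ) : J0 x = ev ((x / 2) ^ 2) (bessel ℝ) :=
  tsum_congr fun k => by rw [coeff_bessel, ← pow_mul]; ring

lemma J1_eq (x : ℝ) : x / 2 * J1 x = ev ((x / 2) ^ 2) (Psi (1 : ℝ) 0) := by
  rw [phi_eq, ev_mul (Sm_X _) (ent_qs _), ev_X, J1, ev, ← tsum_mul_left, ← tsum_mul_left]
  refine tsum_congr fun k => ?_
  rw [qs, coeff_mk, ← pow_mul]
  ring

theorem diag_asymptotics : ∃ j : ℝ, IsLeast {x : ℝ | 0 < x ∧ J0 x = 0} j ∧
    Asymptotics.IsEquivalent atTop (fun n : ℕ => (R n n : ℝ))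
      (fun n : ℕ => (n.factorial : ℝ) ^ 2 / (2 * n * (j / 2 * J1 j) ^ n)) := by
  obtain ⟨c, hc0, hc1, hc⟩ := exists_root
  have hj : (2 * √c / 2) ^ 2 = c := by
    rw [mul_div_cancel_left₀ _ two_ne_zero, Real.sq_sqrt hc0.le]
  refine ⟨2 * √c, ⟨⟨by positivity, by rw [J0_eq, hj, hc]⟩, ?_⟩, ?_⟩
  · rintro x ⟨hx0, hx⟩
    rw [J0_eq] at hx
    by_contra hlt
    have h1 : x / 2 < √c := by linarith [not_le.1 hlt]
    have h2 : (x / 2) ^ 2 < c := by
      rw [← Real.sq_sqrt hc0.le]
      exact pow_lt_pow_left₀ h1 (by positivity) two_ne_zero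
    exact (ev_bessel_pos hc0 hc1 hc (by rwa [abs_of_nonneg (by positivity)])).ne' hx
  · rw [J1_eq, hj]
    obtain ⟨hρ, lim⟩ := diag_tendsto hc0 hc1 hc
    apply Asymptotics.isEquivalent_of_tendsto_one
    rw [← tendsto_add_atTop_iff_nat 1]
    have lim2 := lim.const_mul 2
    rw [show (2 : ℝ) * (1 / 2) = 1 by norm_num] at lim2
    refine lim2.congr fun n => ?_
    simp only [Pi.div_apply]
    push_cast
    field_simp

end Pool.Agent.MP_9d63a4_co

end MrgPart6

-- marker of a merged file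
example : 731051 + 192225 = 731051 + 192225 := rfl
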